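import Pool.Agent.Q278.KM.G

/-!
# Moments of the prime polynomials with constants uniform in the order (helper278)
-/

set_option autoImplicit false

namespace Pool.Agent.Q278.KA

open Filter Topology MeasureTheory
open Pool.Agent.Q278.MC
open Pool.Agent.Q278.KM

/-- the length of the polynomial -/
noncomputable def XX (W a : ℝ) : ℕ := ⌊Real.exp (2 * (2 * W * (2 * Real.pi * a)))⌋₊

lemma XX_one {W a : ℝ} (h : 0 ≤ W * a) : 1 ≤ XX W a := by
  unfold XX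
  rw [Nat.one_le_floor_iff]
  apply Real.one_le_exp
  have := Real.pi_pos
  have e : 2 * (2 * W * (2 * Real.pi * a)) = 8 * Real.pi * (W * a) := by ring
  rw [e]
  positivity

lemma XX_le (W a : ℝ) : (XX W a : ℝ) ≤ Real.exp (2 * (2 * W * (2 * Real.pi * a))) :=
  Nat.floor_le (Real.exp_pos _).le

lemma XX_log {W a : ℝ} (h : 0 ≤ W * a) : Real.log (XX W a) ≤ 8 * Real.pi * W * a := by
  have h1 : (0 : ℝ) < XX W a := by exact_mod_cast XX_one h
  have h2 := Real.log_le_log h1 (XX_le W a)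
  rw [Real.log_exp] at h2
  refine h2.trans (le_of_eq (by ring))

lemma XX_log1 (W a : ℝ) : 2 * (2 * W * (2 * Real.pi * a)) ≤ Real.log (XX W a + 1) := by
  have h1 : Real.exp (2 * (2 * W * (2 * Real.pi * a))) ≤ XX W a + 1 := (Nat.lt_floor_add_one _).le
  have h2 := Real.log_le_log (Real.exp_pos _) h1
  rwa [Real.log_exp] at h2

lemma VV_mono (f : ℝ → ℂ) (a : ℝ) {X Y : ℕ} (h : X ≤ Y) :
    VV (cn f a X) (PX X) ≤ VV (cn f a Y) (PX Y) := by
  unfold VV
  have h1 : ∑ p ∈ PX X, ‖cn f a X p‖ ^ 2 = ∑ p ∈ PX X, ‖cn f a Y p‖ ^ 2 := by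
    refine Finset.sum_congr rfl fun p hp => ?_
    rw [mem_PX] at hp
    rw [cn_apply, cn_apply, if_pos ⟨hp.1, hp.2⟩, if_pos ⟨hp.1, hp.2.trans h⟩]
  rw [h1]
  refine Finset.sum_le_sum_of_subset_of_nonneg ?_ fun _ _ _ => by positivity
  intro p hp
  rw [mem_PX] at hp ⊢
  exact ⟨hp.1, hp.2.trans h⟩

/-- the variances are bounded, uniformly -/
lemma VV_unif {f : ℝ → ℝ} (hf : CC (fc f)) : ∃ V A0 : ℝ, 1 ≤ V ∧ 1 ≤ A0 ∧ ∀ a : ℝ, A0 ≤ a → ∀ X : ℕ,
    VV (cn (fc f) a X) (PX X) ≤ V := by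
  have hpi := Real.pi_pos
  have hv0 : 0 ≤ vr (fc f) := integral_nonneg fun ξ => by positivity
  by_contra hcon
  push Not at hcon
  have h1 : ∀ n : ℕ, ∃ a : ℝ, (n : ℝ) + 1 ≤ a ∧ ∃ X : ℕ, 2 * vr (fc f) + 1 <
      VV (cn (fc f) a X) (PX X) := fun n =>
    hcon (2 * vr (fc f) + 1) (n + 1) (by linarith) (by
      have : (0 : ℝ) ≤ n := Nat.cast_nonneg n
      linarith)
  choose a ha X hX using h1
  set Y : ℕ → ℕ := fun n => max (X n) ⌈Real.exp (a n ^ 2)⌉₊ with hY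
  have hY1 : ∀ n, Real.exp (a n ^ 2) ≤ Y n := fun n => (Nat.le_ceil _).trans (by
    exact_mod_cast le_max_right _ _)
  have hat : Tendsto a atTop atTop := by
    refine tendsto_atTop_mono (fun n => ?_) tendsto_natCast_atTop_atTop
    have := ha n
    linarith
  have hY2 : ∀ n, 1 ≤ Y n := by
    intro n
    have h2 : (1 : ℝ) ≤ Y n := (Real.one_le_exp (sq_nonneg _)).trans (hY1 n)
    exact_mod_cast h2
  have h3 := VV_lim (f := fc f) hf (fc_real f) hat hY2 (by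
    refine tendsto_atTop_mono (fun n => ?_) (hat.atTop_div_const (by positivity : 0 < 2 * Real.pi))
    have ha0 : 0 < a n := by
      have := ha n
      have : (0 : ℝ) ≤ n := Nat.cast_nonneg n
      linarith
    have h4 : a n ^ 2 ≤ Real.log (Y n) := by
      have := Real.log_le_log (Real.exp_pos _) (hY1 n)
      rwa [Real.log_exp] at this
    rw [div_le_div_iff₀ (by positivity) (by positivity)]
    nlinarith [mul_le_mul_of_nonneg_right h4 (by positivity : 0 ≤ 2 * Real.pi)])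
  obtain ⟨n, hn⟩ := (h3.eventually_lt_const (u := 2 * vr (fc f) + 1) (by linarith)).exists
  exact absurd (hX n) (not_lt.2 ((VV_mono (fc f) (a n) (le_max_left _ _)).trans hn.le))

/-- the size of the two polynomials -/
noncomputable def Gp (f : ℝ → ℝ) (W a t : ℝ) : ℝ :=
  ‖DP (cn (fc f) a (XX W a)) (XX W a) t‖ + ‖Er (fc f) W a (XX W a) t‖

lemma Gp_nonneg (f : ℝ → ℝ) (W a t : ℝ) : 0 ≤ Gp f W a t := by unfold Gp; positivity

lemma Gp_cont (f : ℝ → ℝ) (W a : ℝ) : Continuous (Gp f W a) := by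
  unfold Gp
  exact (DP_cont _ _).norm.add (DP_cont _ _).norm

lemma DP_bdd (g : ℕ → ℂ) (X : ℕ) : ∀ t : ℝ, ‖DP g X t‖ ≤ ∑ n ∈ Finset.Icc 1 X, ‖g n‖ := by
  intro t
  unfold DP
  refine (norm_sum_le _ _).trans (Finset.sum_le_sum fun n hn => ?_)
  have hn1 : 0 < n := (Finset.mem_Icc.1 hn).1
  rw [norm_mul, Complex.norm_natCast_cpow_of_pos hn1]
  simp

lemma Gp_bdd (f : ℝ → ℝ) (W a : ℝ) : ∃ M : ℝ, 0 ≤ M ∧ ∀ t, Gp f W a t ≤ M := by
  refine ⟨_, add_nonneg (Finset.sum_nonneg fun _ _ => norm_nonneg _)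
    (Finset.sum_nonneg fun _ _ => norm_nonneg _), fun t => add_le_add (DP_bdd _ _ t) (DP_bdd _ _ t)⟩

lemma two_pow' {x y : ℝ} (hx : 0 ≤ x) (hy : 0 ≤ y) (n : ℕ) : (x + y) ^ n ≤ 2 ^ n * (x ^ n + y ^ n) := by
  have h1 : (x + y) ≤ 2 * max x y := by
    have := le_max_left x y
    have := le_max_right x y
    linarith
  have h2 : max x y ^ n ≤ x ^ n + y ^ n := by
    have ex := pow_nonneg hx n
    have ey := pow_nonneg hy n
    rcases max_choice x y with h | h <;> rw [h] <;> linarith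
  calc (x + y) ^ n ≤ (2 * max x y) ^ n := pow_le_pow_left₀ (by positivity) h1 n
    _ = 2 ^ n * max x y ^ n := mul_pow _ _ _
    _ ≤ _ := mul_le_mul_of_nonneg_left h2 (by positivity)

lemma XX_pow {T L W a : ℝ} {m : ℕ} (hT : 64 ≤ T) (hL : 0 < L) (ha : 0 < a)
    (haL : 2 * Real.pi * a = Real.log T / L) (hW : 1 ≤ W) (hm : 16 * m * W ≤ L) :
    8 * (XX W a : ℝ) ^ m * (1 + Real.log ((XX W a : ℝ) ^ m)) ≤ T := by
  have hX1 : (1 : ℝ) ≤ (XX W a : ℝ) := by exact_mod_cast XX_one (by positivity)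
  have hXM : (1 : ℝ) ≤ (XX W a : ℝ) ^ m := one_le_pow₀ hX1
  have hl : 0 < Real.log T := Real.log_pos (by linarith)
  have h0 : (XX W a : ℝ) ^ (2 * m) ≤ Real.sqrt T := by
    refine (pow_le_pow_left₀ (by linarith) (XX_le W a) _).trans ?_
    rw [← Real.exp_nat_mul, Real.sqrt_eq_rpow, Real.rpow_def_of_pos (by linarith)]
    apply Real.exp_le_exp.2
    rw [haL]
    have e : ((2 * m : ℕ) : ℝ) * (2 * (2 * W * (Real.log T / L))) =
        (16 * m * W / L) * (Real.log T / 2) := by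
      push_cast
      field_simp
      ring
    rw [e]
    have h1 : 16 * m * W / L ≤ 1 := by rw [div_le_one hL]; exact hm
    calc 16 * m * W / L * (Real.log T / 2) ≤ 1 * (Real.log T / 2) :=
          mul_le_mul_of_nonneg_right h1 (by linarith)
      _ = _ := by ring
  have k1 := Real.log_le_sub_one_of_pos (by linarith : (0 : ℝ) < (XX W a : ℝ) ^ m)
  have k2 : 8 * (XX W a : ℝ) ^ m * (1 + Real.log ((XX W a : ℝ) ^ m)) ≤ 8 * (XX W a : ℝ) ^ (2 * m) := by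
    have e : (XX W a : ℝ) ^ (2 * m) = (XX W a : ℝ) ^ m * (XX W a : ℝ) ^ m := by ring
    rw [e]
    nlinarith
  have h9 : 8 ≤ Real.sqrt T := by
    rw [show (8 : ℝ) = Real.sqrt 64 by
      rw [show (64 : ℝ) = 8 ^ 2 by norm_num, Real.sqrt_sq (by norm_num)]]
    exact Real.sqrt_le_sqrt hT
  have h10 : Real.sqrt T ^ 2 = T := Real.sq_sqrt (by linarith)
  nlinarith

/-- **the moments, uniformly in the order** -/
theorem Gp_mom {f : ℝ → ℝ} (hf : CC (fc f)) : ∃ C A0 : ℝ, 1 ≤ C ∧ 1 ≤ A0 ∧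
    ∀ (T L W a : ℝ) (m : ℕ), 64 ≤ T → 0 < L → A0 ≤ a → 2 * Real.pi * a = Real.log T / L → 1 ≤ W →
      1 ≤ m → 16 * m * W ≤ L → ∀ x1 x2 : ℝ, x1 ≤ x2 → x2 - x1 ≤ T →
      ∫ t in x1..x2, Gp f W a t ^ (2 * m) ≤ (C * m) ^ m * T := by
  obtain ⟨V, A0, hV, hA0, hVV⟩ := VV_unif hf
  obtain ⟨K, hK, hEr⟩ := er_mom hf
  refine ⟨4 * (8 * (V + K)), A0, by linarith, hA0,
    fun T L W a m hT hL ha haL hW hm hmW x1 x2 hx hxT => ?_⟩
  have ha0 : 0 < a := by linarith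
  have ha1 : 1 ≤ a := by linarith
  have hWa : 0 ≤ W * a := by positivity
  have hX1 := XX_one hWa
  have hF := XX_pow hT hL ha0 haL hW hmW
  set X := XX W a with hX
  have b1 := dp_mom (cn_Pc (fc f) a X) m hx
  have b2 := hEr a W X m x1 x2 ha1 hW hX1 (XX_log hWa) hx
  have hF2 : (x2 - x1) + 8 * (X : ℝ) ^ m * (1 + Real.log ((X : ℝ) ^ m)) ≤ 2 * T := by linarith
  have hT0 : 0 < T := by linarith
  have hVV0 : 0 ≤ VV (cn (fc f) a X) (PX X) := Finset.sum_nonneg fun p _ => by positivity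
  have hfm : (m.factorial : ℝ) ≤ (m : ℝ) ^ m := by exact_mod_cast Nat.factorial_le_pow m
  have b1' : ∫ t in x1..x2, ‖DP (cn (fc f) a X) X t‖ ^ (2 * m) ≤ (2 * T) * ((m : ℝ) ^ m * V ^ m) := by
    refine b1.trans ?_
    gcongr
    exact hVV a ha X
  have b2' : ∫ t in x1..x2, ‖Er (fc f) W a X t‖ ^ (2 * m) ≤ 3 * K ^ m * (m : ℝ) ^ m * (2 * T) := by
    refine b2.trans ?_
    have hK0 : 0 ≤ K := by linarith
    calc 3 * K ^ m * m.factorial * ((x2 - x1) + 8 * (X : ℝ) ^ m * (1 + Real.log ((X : ℝ) ^ m))) ≤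
        3 * K ^ m * m.factorial * (2 * T) := mul_le_mul_of_nonneg_left hF2 (by positivity)
      _ ≤ _ := by gcongr
  have hc1 : Continuous fun t => ‖DP (cn (fc f) a X) X t‖ ^ (2 * m) := (DP_cont _ _).norm.pow _
  have hc2 : Continuous fun t => ‖Er (fc f) W a X t‖ ^ (2 * m) := by
    have : Continuous (Er (fc f) W a X) := DP_cont _ _
    exact this.norm.pow _
  have h1 : ∫ t in x1..x2, Gp f W a t ^ (2 * m) ≤ ∫ t in x1..x2, 2 ^ (2 * m) *
      (‖DP (cn (fc f) a X) X t‖ ^ (2 * m) + ‖Er (fc f) W a X t‖ ^ (2 * m)) := by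
    refine intervalIntegral.integral_mono_on hx (((Gp_cont f W a).pow _).intervalIntegrable _ _)
      (Continuous.intervalIntegrable (continuous_const.mul (hc1.add hc2)) _ _) fun t _ => ?_
    exact two_pow' (norm_nonneg _) (norm_nonneg _) _
  rw [intervalIntegral.integral_const_mul, intervalIntegral.integral_add
    (hc1.intervalIntegrable _ _) (hc2.intervalIntegrable _ _)] at h1
  refine h1.trans ?_
  have h2 : (2 : ℝ) ^ (2 * m) = 4 ^ m := by rw [pow_mul]; norm_num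
  have hm0 : (0 : ℝ) ≤ (m : ℝ) ^ m := by positivity
  have hVK : 2 * V ^ m + 6 * K ^ m ≤ (8 * (V + K)) ^ m := by
    have g1 : V ^ m ≤ (V + K) ^ m := pow_le_pow_left₀ (by linarith) (by linarith) m
    have g2 : K ^ m ≤ (V + K) ^ m := pow_le_pow_left₀ (by linarith) (by linarith) m
    have g3 : (8 : ℝ) ≤ 8 ^ m := by
      calc (8 : ℝ) = 8 ^ 1 := (pow_one _).symm
        _ ≤ 8 ^ m := pow_le_pow_right₀ (by norm_num) hm
    have g4 : 0 ≤ (V + K) ^ m := by positivity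
    calc 2 * V ^ m + 6 * K ^ m ≤ 8 * (V + K) ^ m := by linarith
      _ ≤ 8 ^ m * (V + K) ^ m := mul_le_mul_of_nonneg_right g3 g4
      _ = _ := by rw [mul_pow]
  calc 2 ^ (2 * m) * ((∫ t in x1..x2, ‖DP (cn (fc f) a X) X t‖ ^ (2 * m)) +
        ∫ t in x1..x2, ‖Er (fc f) W a X t‖ ^ (2 * m)) ≤
      4 ^ m * ((2 * T) * ((m : ℝ) ^ m * V ^ m) + 3 * K ^ m * (m : ℝ) ^ m * (2 * T)) := by
        rw [h2]
        exact mul_le_mul_of_nonneg_left (add_le_add b1' b2') (by positivity)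
    _ = 4 ^ m * (m : ℝ) ^ m * T * (2 * V ^ m + 6 * K ^ m) := by ring
    _ ≤ 4 ^ m * (m : ℝ) ^ m * T * (8 * (V + K)) ^ m := mul_le_mul_of_nonneg_left hVK (by positivity)
    _ = _ := by rw [mul_pow (4 * (8 * (V + K))), mul_pow (4 : ℝ)]; ring

end Pool.Agent.Q278.KA
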