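import Pool.Agent.Q278.KA.A

/-!
# The approximation under RH and the self-improving bound of the smooth count (helper278)
-/

set_option autoImplicit false

namespace Pool.Agent.Q278.KA

open Filter Topology MeasureTheory
open H370 (Zf mult mem_Zf good_zeta NN NN_eq zcount)
open Pool.Agent.Q278.MC
open Pool.Agent.Q278.KM

lemma rh_re (h : RiemannHypothesis) {A B : ℝ} (hA : 1 ≤ A) {s : ℂ} (hs : s ∈ Zf riemannZeta A B) :
    s.re = 1 / 2 := by
  rw [mem_Zf good_zeta hA] at hs
  obtain ⟨h1, h2, h3, h4, h5⟩ := hs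
  refine h s h5 ?_ ?_
  · rintro ⟨n, hn⟩
    rw [hn] at h1
    have e : (-2 * ((n : ℂ) + 1)).re = -2 * ((n : ℝ) + 1) := by simp
    rw [e] at h1
    have : (0 : ℝ) ≤ n := Nat.cast_nonneg n
    linarith
  · rintro rfl
    simp at h2

lemma Bf_rh (h : RiemannHypothesis) {W T a t : ℝ} (hT : 1 ≤ T) : Bf W T a t = W⁻¹ ^ 4 * Sf T a t := by
  unfold Bf Sf
  rw [Finset.mul_sum]
  refine Finset.sum_congr rfl fun s hs => ?_
  unfold wB
  rw [rh_re h hT hs]
  ring

/-- the approximation under RH -/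
theorem rh_approx (h : RiemannHypothesis) {f : ℝ → ℝ} (hf : CC (fc f)) : ∃ K T0 : ℝ, 1 ≤ K ∧ 10 ≤ T0 ∧
    ∀ T : ℝ, T0 ≤ T → ∀ L W a : ℝ, 1 ≤ a → 1 ≤ W → 0 < L → 2 * Real.pi * a = Real.log T / L →
      2 * W ≤ L → 16 ≤ 2 * W * (2 * Real.pi * a) →
      ∀ t : ℝ, T + Real.log T ≤ t → t ≤ 2 * T - Real.log T →
        |SZ f a t - L * ∫ x, f x| ≤ Gp f W a t + K * (W⁻¹ ^ 4 * (Sf T a t + L)) + 2 * K := by
  obtain ⟨K, T0, hK, hT0, h1⟩ := approx hf
  refine ⟨max K 1, T0, le_max_right _ _, hT0, fun T hT L W a ha hW hL haL hWL hU t ht1 ht2 => ?_⟩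
  obtain ⟨U1, U2, g1, g2, g3, g4, g5⟩ := h1 T hT
  have hT10 : 10 ≤ T := hT0.trans hT
  have hW0 : 0 < W := by linarith
  have h2 := g5 L W a ha hW hL haL hWL hU (XX W a) (XX_log1 W a) t ht1 ht2
  have h3 := Bz_le (K := K) (a := a) (A := U1) (B := U2) (t := t) hK.le hW0 hT10 g1 g4
  rw [Bf_rh h (by linarith)] at h3
  have h4 := Complex.abs_re_le_norm (DP (cn (fc f) a (XX W a)) (XX W a) t)
  have e : SZ f a t - L * ∫ x, f x = (SZ f a t - L * (∫ x, f x) +
      (DP (cn (fc f) a (XX W a)) (XX W a) t).re) - (DP (cn (fc f) a (XX W a)) (XX W a) t).re := by ring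
  have h5 : |SZ f a t - L * ∫ x, f x| ≤ (Bz K W a U1 U2 t + K * (1 / a +
      Real.exp (-(2 * W * (2 * Real.pi * a))) + L * W⁻¹ ^ 4) + ‖Er (fc f) W a (XX W a) t‖) +
      ‖DP (cn (fc f) a (XX W a)) (XX W a) t‖ := by
    rw [e]
    exact (abs_sub _ _).trans (add_le_add h2 h4)
  have q1 : 1 / a ≤ 1 := by rw [div_le_one (by linarith)]; exact ha
  have q2 : Real.exp (-(2 * W * (2 * Real.pi * a))) ≤ 1 := Real.exp_le_one_iff.2 (by linarith)
  have hS := Sf_nonneg T a t
  have hW4 : 0 ≤ W⁻¹ ^ 4 := by positivity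
  have hKm : K ≤ max K 1 := le_max_left _ _
  have hQ : 0 ≤ W⁻¹ ^ 4 * (Sf T a t + L) := by positivity
  have h6 : K * (1 / a + Real.exp (-(2 * W * (2 * Real.pi * a))) + L * W⁻¹ ^ 4) ≤
      K * (2 + L * W⁻¹ ^ 4) := mul_le_mul_of_nonneg_left (by linarith) hK.le
  have h7 : K * (W⁻¹ ^ 4 * (Sf T a t + L)) ≤ max K 1 * (W⁻¹ ^ 4 * (Sf T a t + L)) :=
    mul_le_mul_of_nonneg_right hKm hQ
  unfold Gp
  have e2 : K * (W⁻¹ ^ 4 * Sf T a t) + K * (2 + L * W⁻¹ ^ 4) =
      K * (W⁻¹ ^ 4 * (Sf T a t + L)) + 2 * K := by ring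
  linarith

/-- the bump -/
noncomputable def cb (x : ℝ) : ℝ := chi x

lemma cb_cc : CC (fc cb) := ch_cc

lemma cb_nonneg (x : ℝ) : 0 ≤ cb x := chi.nonneg

lemma cb_le (x : ℝ) : cb x ≤ 1 := chi.le_one

lemma cb_one {x : ℝ} (h : |x| ≤ 1) : cb x = 1 := chi_one h

lemma cb_zero {x : ℝ} (h : 2 ≤ |x|) : cb x = 0 := chi_zero h

lemma cb_cont : Continuous cb := chi.continuous

/-- the kernel -/
noncomputable def kk (u : ℝ) : ℝ := (1 + u ^ 2)⁻¹

lemma kk_pos (u : ℝ) : 0 < kk u := by unfold kk; positivity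

lemma kk_int : Integrable kk := integrable_inv_one_add_sq

lemma kk_eq : ∫ u, kk u = Real.pi := integral_univ_inv_one_add_sq

lemma kk_cont : Continuous kk := by
  unfold kk
  exact Continuous.inv₀ (by fun_prop) fun u => by positivity

/-- bounded continuous functions against the kernel -/
lemma kk_mul {g : ℝ → ℝ} (hg : Continuous g) {M : ℝ} (hM : ∀ x, |g x| ≤ M) :
    Integrable fun u => kk u * g u := by
  refine (kk_int.const_mul M).mono' (kk_cont.mul hg).aestronglyMeasurable
    (Eventually.of_forall fun u => ?_)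
  rw [Real.norm_eq_abs, abs_mul, abs_of_pos (kk_pos u), mul_comm]
  exact mul_le_mul_of_nonneg_right (hM u) (kk_pos u).le

lemma conv_low (x : ℝ) : kk x ≤ 3 / 2 * ∫ u, kk u * cb (x - u) := by
  have hi : Integrable fun u => kk u * cb (x - u) :=
    kk_mul (cb_cont.comp (by fun_prop)) (M := 1) fun u => by
      rw [abs_of_nonneg (cb_nonneg _)]; exact cb_le _
  have h1 : ∫ u, (Set.Icc (x - 1) (x + 1)).indicator (fun _ => kk x / 3) u = 2 * (kk x / 3) := by
    rw [integral_indicator measurableSet_Icc, setIntegral_const, Measure.real, Real.volume_Icc,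
      ENNReal.toReal_ofReal (by linarith), smul_eq_mul]
    ring
  have h2 : ∫ u, (Set.Icc (x - 1) (x + 1)).indicator (fun _ => kk x / 3) u ≤
      ∫ u, kk u * cb (x - u) := by
    refine integral_mono ?_ hi fun u => ?_
    · exact (integrable_indicator_iff measurableSet_Icc).2 (by
        rw [integrableOn_const_iff]
        right
        simp)
    · simp only [Set.indicator, Set.mem_Icc]
      split_ifs with hu
      · have hxu : |x - u| ≤ 1 := abs_le.2 ⟨by linarith [hu.2], by linarith [hu.1]⟩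
        rw [cb_one hxu, mul_one]
        have h3 : 1 + u ^ 2 ≤ 3 * (1 + x ^ 2) := by
          have h4 := abs_le.1 hxu
          have h5 : (u - x) ^ 2 ≤ 1 := by nlinarith
          nlinarith [sq_nonneg (2 * x - u)]
        unfold kk
        rw [← one_div, ← one_div, div_div, div_le_div_iff_of_pos_left one_pos (by positivity)
          (by positivity)]
        linarith
      · exact mul_nonneg (kk_pos u).le (cb_nonneg _)
  rw [h1] at h2
  linarith

lemma conv_up (x : ℝ) : ∫ u, kk u * kk (x - u) ≤ 8 * Real.pi * kk x := by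
  have hk1 : ∀ y, kk y ≤ 1 := fun y => inv_le_one_of_one_le₀ (by nlinarith [sq_nonneg y])
  have hi1 : Integrable fun u => kk (x - u) := kk_int.comp_sub_left x
  have hi : Integrable fun u => kk u * kk (x - u) :=
    kk_mul (kk_cont.comp (by fun_prop)) (M := 1) fun u => by
      rw [abs_of_nonneg (kk_pos _).le]; exact hk1 _
  have h1 : ∀ u, kk u * kk (x - u) ≤ 4 * kk x * (kk u + kk (x - u)) := by
    intro u
    have p1 : 0 < 1 + u ^ 2 := by positivity
    have p2 : 0 < 1 + (x - u) ^ 2 := by positivity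
    have p3 : 0 < 1 + x ^ 2 := by positivity
    have h2 : kk u + kk (x - u) = (2 + u ^ 2 + (x - u) ^ 2) * (kk u * kk (x - u)) := by
      unfold kk
      field_simp
      ring
    have h3 : 1 ≤ 4 * kk x * (2 + u ^ 2 + (x - u) ^ 2) := by
      unfold kk
      rw [mul_comm (4 : ℝ), mul_assoc, inv_mul_eq_div, le_div_iff₀ p3]
      nlinarith [sq_nonneg (2 * u - x), sq_nonneg x]
    rw [h2]
    have h4 : 0 ≤ kk u * kk (x - u) := mul_nonneg (kk_pos _).le (kk_pos _).le
    nlinarith
  calc ∫ u, kk u * kk (x - u) ≤ ∫ u, 4 * kk x * (kk u + kk (x - u)) :=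
        integral_mono hi ((kk_int.add hi1).const_mul _) h1
    _ = 4 * kk x * (Real.pi + Real.pi) := by
        rw [integral_const_mul, integral_add kk_int hi1, kk_eq,
          integral_sub_left_eq_self kk volume x, kk_eq]
    _ = _ := by ring

/-- the count with the bump -/
noncomputable def Nb (T a t : ℝ) : ℝ := ∑ s ∈ Zf riemannZeta T (2 * T), mz s * cb (a * (s.im - t))

lemma Nb_triv : ∃ C : ℝ, 1 ≤ C ∧ ∀ T a t : ℝ, 10 ≤ T → 2 ≤ a → Nb T a t ≤ C * Real.log T := by
  obtain ⟨C, hC, hz⟩ := zcount good_zeta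
  refine ⟨2 * C + 1, by linarith, fun T a t hT ha => ?_⟩
  have hl : 0 < Real.log T := Real.log_pos (by linarith)
  have hz0 : ∀ s : ℂ, 1 ≤ |s.im - t| → cb (a * (s.im - t)) = 0 := by
    intro s hs
    apply cb_zero
    rw [abs_mul, abs_of_pos (by linarith : (0 : ℝ) < a)]
    nlinarith
  by_cases ht : T - 1 ≤ t ∧ t ≤ 2 * T + 1
  · have h1 := hz t (by linarith)
    rw [NN_eq good_zeta (by linarith)] at h1
    push_cast at h1
    have h2 : Nb T a t ≤ ∑ s ∈ Zf riemannZeta (t - 1) (t + 1), mz s := by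
      unfold Nb
      rw [← Finset.sum_filter_add_sum_filter_not (Zf riemannZeta T (2 * T)) (fun s => |s.im - t| < 1)]
      have e1 : ∑ s ∈ (Zf riemannZeta T (2 * T)).filter (fun s => ¬ |s.im - t| < 1),
          mz s * cb (a * (s.im - t)) = 0 := by
        refine Finset.sum_eq_zero fun s hs => ?_
        rw [hz0 s (not_lt.1 (Finset.mem_filter.1 hs).2), mul_zero]
      rw [e1, add_zero]
      calc ∑ s ∈ (Zf riemannZeta T (2 * T)).filter (fun s => |s.im - t| < 1),
            mz s * cb (a * (s.im - t)) ≤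
          ∑ s ∈ (Zf riemannZeta T (2 * T)).filter (fun s => |s.im - t| < 1), mz s :=
            Finset.sum_le_sum fun s _ => mul_le_of_le_one_right (mz_nonneg s) (cb_le _)
        _ ≤ _ := by
            refine Finset.sum_le_sum_of_subset_of_nonneg ?_ fun s _ _ => mz_nonneg s
            intro s hs
            rw [Finset.mem_filter, mem_Zf good_zeta (by linarith)] at hs
            obtain ⟨⟨k1, k2, k3, k4, k5⟩, k6⟩ := hs
            rw [mem_Zf good_zeta (by linarith)]
            have k7 := abs_lt.1 k6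
            exact ⟨k1, k2, by linarith [k7.1], by linarith [k7.2], k5⟩
    have h3 : Real.log t ≤ 2 * Real.log T := by
      have h6 : Real.log t ≤ Real.log (T ^ 2) := Real.log_le_log (by linarith) (by nlinarith)
      rwa [Real.log_pow] at h6
    have h4 : Nb T a t ≤ C * Real.log t := h2.trans h1
    nlinarith
  · have e : Nb T a t = 0 := by
      unfold Nb
      refine Finset.sum_eq_zero fun s hs => ?_
      rw [mem_Zf good_zeta (by linarith)] at hs
      obtain ⟨k1, k2, k3, k4, k5⟩ := hs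
      rw [hz0 s, mul_zero]
      rw [le_abs]
      by_cases h' : T - 1 ≤ t
      · right
        have : ¬ t ≤ 2 * T + 1 := fun h'' => ht ⟨h', h''⟩
        push Not at this
        linarith
      · left
        push Not at h'
        linarith
    rw [e]
    positivity

end Pool.Agent.Q278.KA
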