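import Pool.Agent.Q278.KA.B

/-!
# The smooth count of the zeros is controlled by the prime polynomials (helper278)
-/

set_option autoImplicit false

namespace Pool.Agent.Q278.KA

open Filter Topology MeasureTheory
open H370 (Zf mult mem_Zf good_zeta NN NN_eq zcount)
open Pool.Agent.Q278.MC
open Pool.Agent.Q278.KM

lemma Sf_kk (T a t : ℝ) : Sf T a t = ∑ s ∈ Zf riemannZeta T (2 * T), mz s * kk (a * (s.im - t)) := rfl

lemma Sf_bdd (T a : ℝ) : ∀ t, Sf T a t ≤ ∑ s ∈ Zf riemannZeta T (2 * T), mz s := by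
  intro t
  rw [Sf_kk]
  refine Finset.sum_le_sum fun s _ => mul_le_of_le_one_right (mz_nonneg s) ?_
  exact inv_le_one_of_one_le₀ (by nlinarith [sq_nonneg (a * (s.im - t))])

lemma Nb_cont (T a : ℝ) : Continuous (Nb T a) := by
  unfold Nb
  exact continuous_finsetSum _ fun s _ => continuous_const.mul (cb_cont.comp (by fun_prop))

lemma Nb_nonneg (T a t : ℝ) : 0 ≤ Nb T a t :=
  Finset.sum_nonneg fun s _ => mul_nonneg (mz_nonneg s) (cb_nonneg _)

lemma Nb_bdd (T a : ℝ) : ∀ t, Nb T a t ≤ ∑ s ∈ Zf riemannZeta T (2 * T), mz s := fun t =>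
  Finset.sum_le_sum fun s _ => mul_le_of_le_one_right (mz_nonneg s) (cb_le _)

/-- the smooth count is an average of counts -/
lemma Sf_le_avg {T a t : ℝ} (ha : 0 < a) :
    Sf T a t ≤ 3 / 2 * ∫ u, kk u * Nb T a (t + u / a) := by
  have hi : ∀ x : ℝ, Integrable fun u => kk u * cb (x - u) := fun x =>
    kk_mul (cb_cont.comp (by fun_prop)) (M := 1) fun u => by
      rw [abs_of_nonneg (cb_nonneg _)]; exact cb_le _
  have e1 : ∀ u : ℝ, kk u * Nb T a (t + u / a) = ∑ s ∈ Zf riemannZeta T (2 * T),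
      mz s * (kk u * cb (a * (s.im - t) - u)) := by
    intro u
    unfold Nb
    rw [Finset.mul_sum]
    refine Finset.sum_congr rfl fun s _ => ?_
    have : a * (s.im - (t + u / a)) = a * (s.im - t) - u := by field_simp; ring
    rw [this]
    ring
  simp_rw [e1]
  rw [integral_finsetSum _ fun s _ => (hi (a * (s.im - t))).const_mul _, Finset.mul_sum, Sf_kk]
  refine Finset.sum_le_sum fun s _ => ?_
  rw [integral_const_mul]
  have h1 := mul_le_mul_of_nonneg_left (conv_low (a * (s.im - t))) (mz_nonneg s)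
  refine h1.trans (le_of_eq (by ring))

lemma Sf_avg_int {T a t : ℝ} : Integrable fun u => kk u * Sf T a (t + u / a) :=
  kk_mul ((Sf_cont T a).comp (by fun_prop)) (M := ∑ s ∈ Zf riemannZeta T (2 * T), mz s) fun u => by
    rw [abs_of_nonneg (Sf_nonneg _ _ _)]; exact Sf_bdd _ _ _

/-- averages of the smooth count -/
lemma Sf_avg {T a t : ℝ} (ha : 0 < a) :
    ∫ u, kk u * Sf T a (t + u / a) ≤ 8 * Real.pi * Sf T a t := by
  have hk1 : ∀ y, kk y ≤ 1 := fun y => inv_le_one_of_one_le₀ (by nlinarith [sq_nonneg y])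
  have hi : ∀ x : ℝ, Integrable fun u => kk u * kk (x - u) := fun x =>
    kk_mul (kk_cont.comp (by fun_prop)) (M := 1) fun u => by
      rw [abs_of_nonneg (kk_pos _).le]; exact hk1 _
  have e1 : ∀ u : ℝ, kk u * Sf T a (t + u / a) = ∑ s ∈ Zf riemannZeta T (2 * T),
      mz s * (kk u * kk (a * (s.im - t) - u)) := by
    intro u
    rw [Sf_kk, Finset.mul_sum]
    refine Finset.sum_congr rfl fun s _ => ?_
    have : a * (s.im - (t + u / a)) = a * (s.im - t) - u := by field_simp; ring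
    rw [this]
    ring
  simp_rw [e1]
  rw [integral_finsetSum _ fun s _ => (hi (a * (s.im - t))).const_mul _, Sf_kk, Finset.mul_sum]
  refine Finset.sum_le_sum fun s _ => ?_
  rw [integral_const_mul]
  have h1 := mul_le_mul_of_nonneg_left (conv_up (a * (s.im - t))) (mz_nonneg s)
  refine h1.trans (le_of_eq (by ring))

/-- the average of the polynomial of the bump -/
noncomputable def Hp (W a t : ℝ) : ℝ := ∫ u, kk u * Gp cb W a (t + u / a)

lemma Hp_int (W a t : ℝ) : Integrable fun u => kk u * Gp cb W a (t + u / a) := by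
  obtain ⟨M, hM0, hM⟩ := Gp_bdd cb W a
  exact kk_mul ((Gp_cont cb W a).comp (by fun_prop)) (M := M) fun u => by
    rw [abs_of_nonneg (Gp_nonneg _ _ _ _)]; exact hM _

lemma Hp_nonneg (W a t : ℝ) : 0 ≤ Hp W a t :=
  integral_nonneg fun u => mul_nonneg (kk_pos u).le (Gp_nonneg _ _ _ _)

/-- a longer tail -/
lemma k34_int : Integrable fun u : ℝ => (1 + ‖u‖ ^ 2) ^ (-(3 / 2 : ℝ) / 2) :=
  integrable_rpow_neg_one_add_norm_sq (r := 3 / 2) (by
    rw [Module.finrank_self]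
    norm_num)

/-- **the bound of the smooth count** -/
theorem S_bound (h : RiemannHypothesis) : ∃ W0 C T0 : ℝ, 1 ≤ W0 ∧ 1 ≤ C ∧ 10 ≤ T0 ∧
    ∀ T L a : ℝ, T0 ≤ T → 1 ≤ L → 2 ≤ a → 2 * Real.pi * a = Real.log T / L → 2 * W0 ≤ L →
      ∀ t : ℝ, T + 2 * Real.log T ≤ t → t ≤ 2 * T - 2 * Real.log T →
        Sf T a t ≤ C * L + C * Hp W0 a t := by
  obtain ⟨K, T0, hK, hT0, hap⟩ := rh_approx h cb_cc
  obtain ⟨C1, hC1, htr⟩ := Nb_triv
  have hpi := Real.pi_gt_three
  set W0 : ℝ := 24 * Real.pi * K with hW0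
  have hW01 : 1 ≤ W0 := by rw [hW0]; nlinarith
  have hW0p : 0 < W0 := by linarith
  set c0 : ℝ := ∫ u : ℝ, (1 + ‖u‖ ^ 2) ^ (-(3 / 2 : ℝ) / 2) with hc0
  have hc00 : 0 ≤ c0 := integral_nonneg fun u => by positivity
  set I0 : ℝ := ∫ x, cb x with hI0
  have hI00 : 0 ≤ I0 := integral_nonneg fun u => cb_nonneg u
  refine ⟨W0, 3 * (Real.pi * (I0 + K + 2 * K) + C1 * (2 * Real.pi) * c0 + 1),
    max T0 (Real.exp 3), hW01, ?_, hT0.trans (le_max_left _ _),
    fun T L a hTm hL ha haL hWL t ht1 ht2 => ?_⟩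
  · have : 0 ≤ Real.pi * (I0 + K + 2 * K) + C1 * (2 * Real.pi) * c0 := by positivity
    linarith
  have hT : T0 ≤ T := (le_max_left _ _).trans hTm
  have hT10 : 10 ≤ T := hT0.trans hT
  have ha0 : 0 < a := by linarith
  have hL0 : 0 < L := by linarith
  have hl3 : 3 ≤ Real.log T := by
    rw [Real.le_log_iff_exp_le (by linarith)]
    exact (le_max_right _ _).trans hTm
  set ℓ := Real.log T with hℓ
  have hl : 0 < ℓ := Real.log_pos (by linarith)
  have hWi : W0⁻¹ ^ 4 ≤ W0⁻¹ := by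
    have h1 : W0⁻¹ ≤ 1 := inv_le_one_of_one_le₀ hW01
    have h2 : 0 < W0⁻¹ := by positivity
    calc W0⁻¹ ^ 4 ≤ W0⁻¹ ^ 1 := pow_le_pow_of_le_one h2.le h1 (by norm_num)
      _ = _ := pow_one _
  have hKW : K * W0⁻¹ ^ 4 * (12 * Real.pi) ≤ 1 / 2 := by
    have h1 : K * W0⁻¹ * (12 * Real.pi) = 1 / 2 := by
      rw [hW0]
      field_simp
      ring
    rw [← h1]
    gcongr
  have hU : 16 ≤ 2 * W0 * (2 * Real.pi * a) := by
    have h1 : 12 ≤ 2 * Real.pi * a := by nlinarith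
    nlinarith
  have hal : a ≤ ℓ := by
    have h1 : 2 * Real.pi * a * L = ℓ := by rw [haL]; field_simp
    have h2 : a ≤ 2 * Real.pi * a := by nlinarith
    have h3 : 2 * Real.pi * a ≤ 2 * Real.pi * a * L := le_mul_of_one_le_right (by positivity) hL
    linarith
  -- the pointwise bound
  have hpt : ∀ u : ℝ, kk u * Nb T a (t + u / a) ≤ kk u * (L * I0 + K * L + 2 * K) +
      kk u * Gp cb W0 a (t + u / a) + (K * W0⁻¹ ^ 4) * (kk u * Sf T a (t + u / a)) +
      C1 * (2 * Real.pi * L) * (1 + ‖u‖ ^ 2) ^ (-(3 / 2 : ℝ) / 2) := by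
    intro u
    have hk := kk_pos u
    have hG := Gp_nonneg cb W0 a (t + u / a)
    have hS := Sf_nonneg T a (t + u / a)
    have hr : 0 ≤ (1 + ‖u‖ ^ 2) ^ (-(3 / 2 : ℝ) / 2) := by positivity
    have hKW0 : 0 ≤ K * W0⁻¹ ^ 4 := by positivity
    by_cases hu : T + ℓ ≤ t + u / a ∧ t + u / a ≤ 2 * T - ℓ
    · have h1 := hap T hT L W0 a (by linarith) hW01 hL0 haL hWL hU (t + u / a) hu.1 hu.2
      have h2 := (abs_le.1 h1).2
      have e1 : Nb T a (t + u / a) = SZ cb a (t + u / a) := by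
        rw [SZ_eq (R := 2) (f := cb) (A := T) (B := 2 * T) (fun x hx => cb_zero hx.le) (by linarith)
          (by linarith) (by linarith [hu.1]) (by linarith [hu.2])]
        rfl
      have hW41 : W0⁻¹ ^ 4 ≤ 1 := hWi.trans (inv_le_one_of_one_le₀ hW01)
      have h3 : K * (W0⁻¹ ^ 4 * L) ≤ K * L := by
        have : W0⁻¹ ^ 4 * L ≤ 1 * L := mul_le_mul_of_nonneg_right hW41 hL0.le
        rw [one_mul] at this
        exact mul_le_mul_of_nonneg_left this (by linarith)
      have h4 : Nb T a (t + u / a) ≤ (L * I0 + K * L + 2 * K) + Gp cb W0 a (t + u / a) +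
          K * W0⁻¹ ^ 4 * Sf T a (t + u / a) := by
        rw [e1]
        have e2 : K * (W0⁻¹ ^ 4 * (Sf T a (t + u / a) + L)) = K * W0⁻¹ ^ 4 * Sf T a (t + u / a) +
            K * (W0⁻¹ ^ 4 * L) := by ring
        linarith
      have h5 := mul_le_mul_of_nonneg_left h4 hk.le
      have h6 : 0 ≤ C1 * (2 * Real.pi * L) * (1 + ‖u‖ ^ 2) ^ (-(3 / 2 : ℝ) / 2) := by positivity
      calc _ ≤ _ := h5
        _ = kk u * (L * I0 + K * L + 2 * K) + kk u * Gp cb W0 a (t + u / a) +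
            (K * W0⁻¹ ^ 4) * (kk u * Sf T a (t + u / a)) := by ring
        _ ≤ _ := by linarith
    · have hua : a * ℓ ≤ |u| := by
        by_contra hc
        push Not at hc
        have h1 : |u / a| < ℓ := by
          rw [abs_div, abs_of_pos ha0, div_lt_iff₀ ha0]
          linarith
        have h2 := abs_lt.1 h1
        exact hu ⟨by linarith [h2.1], by linarith [h2.2]⟩
      have h1 := htr T a (t + u / a) hT10 ha
      set x : ℝ := 1 + ‖u‖ ^ 2 with hx
      have hx1 : 1 ≤ x := by rw [hx]; nlinarith [sq_nonneg ‖u‖]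
      have hx0 : 0 < x := by linarith
      have hxa : a ^ 4 ≤ x := by
        have g1 : a * a ≤ |u| := (mul_le_mul_of_nonneg_left hal ha0.le).trans hua
        have g2 : (a * a) ^ 2 ≤ |u| ^ 2 := pow_le_pow_left₀ (by positivity) g1 2
        rw [hx, Real.norm_eq_abs]
        nlinarith
      have h2 : a ≤ x ^ (1 / 4 : ℝ) := by
        have g1 : (a ^ 4 : ℝ) ^ (1 / 4 : ℝ) = a := by
          have := Real.pow_rpow_inv_natCast ha0.le (by norm_num : (4 : ℕ) ≠ 0)
          rwa [show ((4 : ℕ) : ℝ)⁻¹ = 1 / 4 by norm_num] at this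
        rw [← g1]
        exact Real.rpow_le_rpow (by positivity) hxa (by norm_num)
      have hku : kk u = x ^ (-(3 / 2 : ℝ) / 2) * (x ^ (1 / 4 : ℝ))⁻¹ := by
        rw [← Real.rpow_neg hx0.le, ← Real.rpow_add hx0]
        norm_num
        rw [Real.rpow_neg_one]
        unfold kk
        rw [hx, Real.norm_eq_abs, sq_abs]
      have h3 : ℓ * kk u ≤ 2 * Real.pi * L * x ^ (-(3 / 2 : ℝ) / 2) := by
        have g1 : (x ^ (1 / 4 : ℝ))⁻¹ ≤ a⁻¹ := by
          rw [inv_le_inv₀ (by positivity) ha0]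
          exact h2
        have g2 : 2 * Real.pi * L = ℓ * a⁻¹ := by
          have : 2 * Real.pi * a * L = ℓ := by rw [haL]; field_simp
          rw [← this]
          field_simp
        rw [hku, g2]
        calc ℓ * (x ^ (-(3 / 2 : ℝ) / 2) * (x ^ (1 / 4 : ℝ))⁻¹) ≤
            ℓ * (x ^ (-(3 / 2 : ℝ) / 2) * a⁻¹) := by gcongr
          _ = _ := by ring
      have h4 : kk u * Nb T a (t + u / a) ≤ C1 * (2 * Real.pi * L) * x ^ (-(3 / 2 : ℝ) / 2) := by
        calc kk u * Nb T a (t + u / a) ≤ kk u * (C1 * ℓ) := mul_le_mul_of_nonneg_left h1 hk.le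
          _ = C1 * (ℓ * kk u) := by ring
          _ ≤ C1 * (2 * Real.pi * L * x ^ (-(3 / 2 : ℝ) / 2)) :=
              mul_le_mul_of_nonneg_left h3 (by linarith)
          _ = _ := by ring
      have h5 : 0 ≤ kk u * (L * I0 + K * L + 2 * K) := mul_nonneg hk.le (by positivity)
      have h6 : 0 ≤ kk u * Gp cb W0 a (t + u / a) := mul_nonneg hk.le hG
      have h7 : 0 ≤ (K * W0⁻¹ ^ 4) * (kk u * Sf T a (t + u / a)) :=
        mul_nonneg hKW0 (mul_nonneg hk.le hS)
      linarith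
  have iN : Integrable fun u => kk u * Nb T a (t + u / a) :=
    kk_mul ((Nb_cont T a).comp (by fun_prop)) (M := ∑ s ∈ Zf riemannZeta T (2 * T), mz s) fun u => by
      rw [abs_of_nonneg (Nb_nonneg _ _ _)]; exact Nb_bdd _ _ _
  have i1 : Integrable fun u => kk u * (L * I0 + K * L + 2 * K) := kk_int.mul_const _
  have i2 := Hp_int W0 a t
  have i3 : Integrable fun u => (K * W0⁻¹ ^ 4) * (kk u * Sf T a (t + u / a)) :=
    Sf_avg_int.const_mul _
  have i4 : Integrable fun u : ℝ => C1 * (2 * Real.pi * L) * (1 + ‖u‖ ^ 2) ^ (-(3 / 2 : ℝ) / 2) :=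
    k34_int.const_mul _
  have h1 := Sf_le_avg (T := T) (t := t) ha0
  have h2 := integral_mono iN (((i1.add i2).add i3).add i4) hpt
  have h3 : ∫ u, (kk u * (L * I0 + K * L + 2 * K) + kk u * Gp cb W0 a (t + u / a) +
      (K * W0⁻¹ ^ 4) * (kk u * Sf T a (t + u / a)) +
      C1 * (2 * Real.pi * L) * (1 + ‖u‖ ^ 2) ^ (-(3 / 2 : ℝ) / 2)) =
      Real.pi * (L * I0 + K * L + 2 * K) + Hp W0 a t +
        (K * W0⁻¹ ^ 4) * (∫ u, kk u * Sf T a (t + u / a)) + C1 * (2 * Real.pi * L) * c0 := by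
    have i12 : Integrable fun u => kk u * (L * I0 + K * L + 2 * K) +
      kk u * Gp cb W0 a (t + u / a) := i1.add i2
    have i123 : Integrable fun u => kk u * (L * I0 + K * L + 2 * K) +
      kk u * Gp cb W0 a (t + u / a) + (K * W0⁻¹ ^ 4) * (kk u * Sf T a (t + u / a)) := i12.add i3
    rw [integral_add i123 i4, integral_add i12 i3, integral_add i1 i2,
      integral_mul_const, kk_eq, integral_const_mul, integral_const_mul]
    rfl
  have h4 := Sf_avg (T := T) (t := t) ha0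
  have h5 : (K * W0⁻¹ ^ 4) * (∫ u, kk u * Sf T a (t + u / a)) ≤
      (K * W0⁻¹ ^ 4) * (8 * Real.pi * Sf T a t) := mul_le_mul_of_nonneg_left h4 (by positivity)
  have h6 : ∫ u, kk u * Nb T a (t + u / a) ≤ Real.pi * (L * I0 + K * L + 2 * K) + Hp W0 a t +
      (K * W0⁻¹ ^ 4) * (8 * Real.pi * Sf T a t) + C1 * (2 * Real.pi * L) * c0 := by
    refine (h2.trans (le_of_eq h3)).trans ?_
    linarith
  have hS := Sf_nonneg T a t
  have h7 : 3 / 2 * ((K * W0⁻¹ ^ 4) * (8 * Real.pi * Sf T a t)) ≤ 1 / 2 * Sf T a t := by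
    have e : 3 / 2 * ((K * W0⁻¹ ^ 4) * (8 * Real.pi * Sf T a t)) =
        (K * W0⁻¹ ^ 4 * (12 * Real.pi)) * Sf T a t := by ring
    rw [e]
    exact mul_le_mul_of_nonneg_right hKW hS
  have h8 : Sf T a t ≤ 3 * (Real.pi * (L * I0 + K * L + 2 * K) + Hp W0 a t +
      C1 * (2 * Real.pi * L) * c0) := by linarith
  have hH := Hp_nonneg W0 a t
  have h9 : 2 * K ≤ 2 * K * L := le_mul_of_one_le_right (by linarith) hL
  have h10 : Real.pi * (L * I0 + K * L + 2 * K) ≤ Real.pi * (I0 + K + 2 * K) * L := by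
    have : L * I0 + K * L + 2 * K ≤ (I0 + K + 2 * K) * L := by linarith
    calc _ ≤ Real.pi * ((I0 + K + 2 * K) * L) := mul_le_mul_of_nonneg_left this (by linarith)
      _ = _ := by ring
  set D := Real.pi * (I0 + K + 2 * K) + C1 * (2 * Real.pi) * c0 with hD
  have hD0 : 0 ≤ D := by positivity
  have e3 : 3 * (D + 1) * L + 3 * (D + 1) * Hp W0 a t =
      3 * (D * L) + 3 * Hp W0 a t + (3 * L + 3 * (D * Hp W0 a t)) := by ring
  rw [e3]
  have h11 : Real.pi * (I0 + K + 2 * K) * L + C1 * (2 * Real.pi * L) * c0 = D * L := by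
    rw [hD]; ring
  have h12 : 0 ≤ D * Hp W0 a t := mul_nonneg hD0 hH
  linarith

end Pool.Agent.Q278.KA
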