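import Pool.Agent.Q278.KA.C

/-!
# Tails of the polynomials and of their averages (helper278)
-/

set_option autoImplicit false

namespace Pool.Agent.Q278.KA

open Filter Topology MeasureTheory
open H370 (Zf mult mem_Zf good_zeta NN NN_eq zcount)
open Pool.Agent.Q278.MC
open Pool.Agent.Q278.KM

/-- Jensen for the kernel -/
lemma jensen {g : ℝ → ℝ} (hg : Continuous g) (h0 : ∀ x, 0 ≤ g x) {M : ℝ} (hM : ∀ x, g x ≤ M) (n : ℕ) :
    (∫ u, kk u * g u) ^ (n + 1) ≤ Real.pi ^ n * ∫ u, kk u * g u ^ (n + 1) := by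
  have hpi := Real.pi_pos
  have hM0 : 0 ≤ M := (h0 0).trans (hM 0)
  set J := ∫ u, kk u * g u with hJ
  have hJ0 : 0 ≤ J := integral_nonneg fun u => mul_nonneg (kk_pos u).le (h0 u)
  have i1 : Integrable fun u => kk u * g u := kk_mul hg (M := M) fun u => by
    rw [abs_of_nonneg (h0 u)]; exact hM u
  have i2 : Integrable fun u => kk u * g u ^ (n + 1) := kk_mul (hg.pow _) (M := M ^ (n + 1)) fun u => by
    rw [abs_of_nonneg (pow_nonneg (h0 u) _)]; exact pow_le_pow_left₀ (h0 u) (hM u) _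
  set c := J / Real.pi with hc
  have hc0 : 0 ≤ c := by positivity
  have h1 : Real.pi * c ^ (n + 1) ≤ ∫ u, kk u * g u ^ (n + 1) := by
    have h2 : ∫ u, ((c ^ (n + 1) - (n + 1) * c ^ n * c) * kk u + (n + 1) * c ^ n * (kk u * g u)) ≤
        ∫ u, kk u * g u ^ (n + 1) := by
      refine integral_mono ((kk_int.const_mul _).add (i1.const_mul _)) i2 fun u => ?_
      have h3 := mul_le_mul_of_nonneg_left (tangent (h0 u) hc0 n) (kk_pos u).le
      refine le_trans (le_of_eq ?_) h3
      ring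
    refine le_trans (le_of_eq ?_) h2
    rw [integral_add (kk_int.const_mul _) (i1.const_mul _), integral_const_mul, integral_const_mul,
      kk_eq, ← hJ]
    have h4 : J = c * Real.pi := by rw [hc]; field_simp
    rw [h4]
    ring
  calc J ^ (n + 1) = Real.pi ^ n * (Real.pi * c ^ (n + 1)) := by
        have h4 : J = c * Real.pi := by rw [hc]; field_simp
        rw [h4]
        ring
    _ ≤ _ := mul_le_mul_of_nonneg_left h1 (by positivity)

lemma Hp_cont (W a : ℝ) : Continuous (Hp W a) := by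
  obtain ⟨M, hM0, hM⟩ := Gp_bdd cb W a
  unfold Hp
  refine continuous_of_dominated (bound := fun u => kk u * M) (fun t => ?_) (fun t => ?_)
    (kk_int.mul_const M) ?_
  · exact (Hp_int W a t).aestronglyMeasurable
  · refine Eventually.of_forall fun u => ?_
    rw [Real.norm_of_nonneg (mul_nonneg (kk_pos u).le (Gp_nonneg _ _ _ _))]
    exact mul_le_mul_of_nonneg_left (hM _) (kk_pos u).le
  · exact Eventually.of_forall fun u => continuous_const.mul ((Gp_cont cb W a).comp (by fun_prop))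

/-- the moments of the average -/
theorem Hp_mom : ∃ C A0 : ℝ, 1 ≤ C ∧ 1 ≤ A0 ∧
    ∀ (T L W a : ℝ) (m : ℕ), 64 ≤ T → 0 < L → A0 ≤ a → 2 * Real.pi * a = Real.log T / L → 1 ≤ W →
      1 ≤ m → 16 * m * W ≤ L → ∀ x1 x2 : ℝ, x1 ≤ x2 → x2 - x1 ≤ T →
      ∫ t in x1..x2, Hp W a t ^ (2 * m) ≤ (C * m) ^ m * T := by
  obtain ⟨C, A0, hC, hA0, h⟩ := Gp_mom cb_cc
  have hpi3 := Real.pi_gt_three
  refine ⟨Real.pi ^ 2 * C, A0, by nlinarith, hA0,
    fun T L W a m hT hL ha haL hW hm hmW x1 x2 hx hxT => ?_⟩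
  obtain ⟨M, hM0, hM⟩ := Gp_bdd cb W a
  have hGc := Gp_cont cb W a
  obtain ⟨n, rfl⟩ : ∃ n, m = n + 1 := ⟨m - 1, by omega⟩
  set N := 2 * (n + 1) with hN
  have hN1 : N = (2 * n + 1) + 1 := by omega
  have hj : ∀ t, Hp W a t ^ N ≤ Real.pi ^ (2 * n + 1) * ∫ u, kk u * Gp cb W a (t + u / a) ^ N := by
    intro t
    rw [hN1]
    exact jensen (g := fun u => Gp cb W a (t + u / a)) (hGc.comp (by fun_prop))
      (fun u => Gp_nonneg _ _ _ _) (fun u => hM _) (2 * n + 1)
  have hGN : Continuous fun t => Gp cb W a t ^ N := hGc.pow N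
  -- the double integral
  have hint : Integrable (Function.uncurry fun (t u : ℝ) => kk u * Gp cb W a (t + u / a) ^ N)
      ((volume.restrict (Set.Ioc x1 x2)).prod volume) := by
    have hb : Integrable (fun p : ℝ × ℝ => (M ^ N) * kk p.2)
        ((volume.restrict (Set.Ioc x1 x2)).prod volume) := by
      have h1 : Integrable (fun _ : ℝ => M ^ N) (volume.restrict (Set.Ioc x1 x2)) :=
        integrable_const _
      exact h1.mul_prod kk_int
    refine hb.mono' ?_ (Eventually.of_forall fun p => ?_)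
    · refine Continuous.aestronglyMeasurable ?_
      unfold Function.uncurry
      exact (kk_cont.comp continuous_snd).mul (hGN.comp (by fun_prop))
    · unfold Function.uncurry
      rw [Real.norm_of_nonneg (mul_nonneg (kk_pos _).le (pow_nonneg (Gp_nonneg _ _ _ _) _)), mul_comm]
      exact mul_le_mul_of_nonneg_right (pow_le_pow_left₀ (Gp_nonneg _ _ _ _) (hM _) _) (kk_pos _).le
  have hswap := integral_integral_swap hint
  have h1 : ∫ t in x1..x2, Hp W a t ^ N ≤ Real.pi ^ (2 * n + 1) *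
      ∫ t in x1..x2, ∫ u, kk u * Gp cb W a (t + u / a) ^ N := by
    rw [← intervalIntegral.integral_const_mul]
    refine intervalIntegral.integral_mono_on hx (((Hp_cont W a).pow _).intervalIntegrable _ _)
      ?_ fun t _ => hj t
    rw [intervalIntegrable_iff_integrableOn_Ioc_of_le hx]
    exact (hint.integral_prod_left).const_mul _
  have h2 : ∫ t in x1..x2, ∫ u, kk u * Gp cb W a (t + u / a) ^ N =
      ∫ u, kk u * ∫ t in x1..x2, Gp cb W a (t + u / a) ^ N := by
    rw [intervalIntegral.integral_of_le hx, hswap]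
    refine integral_congr_ae (Eventually.of_forall fun u => ?_)
    simp only
    rw [integral_const_mul, intervalIntegral.integral_of_le hx]
  have h3 : ∀ u, ∫ t in x1..x2, Gp cb W a (t + u / a) ^ N ≤ (C * (n + 1 : ℕ)) ^ (n + 1) * T := by
    intro u
    rw [intervalIntegral.integral_comp_add_right (fun t => Gp cb W a t ^ N)]
    exact h T L W a (n + 1) hT hL ha haL hW hm hmW _ _ (by linarith) (by linarith)
  have h4 : ∫ u, kk u * ∫ t in x1..x2, Gp cb W a (t + u / a) ^ N ≤
      Real.pi * ((C * (n + 1 : ℕ)) ^ (n + 1) * T) := by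
    rw [← kk_eq, ← integral_mul_const]
    refine integral_mono_of_nonneg (Eventually.of_forall fun u => ?_) (kk_int.mul_const _)
      (Eventually.of_forall fun u => mul_le_mul_of_nonneg_left (h3 u) (kk_pos u).le)
    refine mul_nonneg (kk_pos u).le (intervalIntegral.integral_nonneg hx fun t _ => ?_)
    exact pow_nonneg (Gp_nonneg _ _ _ _) _
  calc ∫ t in x1..x2, Hp W a t ^ N ≤ Real.pi ^ (2 * n + 1) *
        (Real.pi * ((C * (n + 1 : ℕ)) ^ (n + 1) * T)) :=
        h1.trans (mul_le_mul_of_nonneg_left (h2.trans_le h4) (by positivity))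
    _ = _ := by
        rw [mul_assoc (Real.pi ^ 2) C, mul_pow (Real.pi ^ 2)]
        ring

/-- Markov's inequality -/
lemma markov {F : ℝ → ℝ} (hF : Continuous F) (h0 : ∀ t, 0 ≤ F t) {x1 x2 : ℝ} (hx : x1 ≤ x2)
    {C T y : ℝ} (hy : 0 < y) {m : ℕ} (hB : ∫ t in x1..x2, F t ^ (2 * m) ≤ (C * m) ^ m * T) :
    (volume.restrict (Set.Ioc x1 x2)).real {t | y < F t} ≤ (C * m / y ^ 2) ^ m * T := by
  have h1 := mul_meas_ge_le_integral_of_nonneg (μ := volume.restrict (Set.Ioc x1 x2))
    (f := fun t => F t ^ (2 * m)) (Eventually.of_forall fun t => pow_nonneg (h0 t) _)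
    (by
      rw [← IntegrableOn, ← intervalIntegrable_iff_integrableOn_Ioc_of_le hx]
      exact (hF.pow _).intervalIntegrable _ _) (y ^ (2 * m))
  rw [← intervalIntegral.integral_of_le hx] at h1
  have h2 : (volume.restrict (Set.Ioc x1 x2)).real {t | y < F t} ≤
      (volume.restrict (Set.Ioc x1 x2)).real {t | y ^ (2 * m) ≤ F t ^ (2 * m)} := by
    refine measureReal_mono (fun t ht => ?_) ?_
    · exact pow_le_pow_left₀ hy.le (le_of_lt ht) _
    · exact measure_ne_top _ _
  have hy2 : 0 < y ^ (2 * m) := by positivity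
  have h3 : y ^ (2 * m) * (volume.restrict (Set.Ioc x1 x2)).real {t | y < F t} ≤ (C * m) ^ m * T :=
    (mul_le_mul_of_nonneg_left h2 hy2.le).trans (h1.trans hB)
  rw [div_pow, ← pow_mul, div_mul_eq_mul_div, le_div_iff₀ hy2]
  linarith

lemma tail_pow {q κ V : ℝ} {m : ℕ} (hq0 : 0 ≤ q) (hq : q ≤ Real.exp (-κ)) (hm : 2 * V ≤ κ * m) :
    q ^ m ≤ Real.exp (-(2 * V)) := by
  calc q ^ m ≤ Real.exp (-κ) ^ m := pow_le_pow_left₀ hq0 hq m
    _ = Real.exp (m * -κ) := by rw [← Real.exp_nat_mul]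
    _ ≤ _ := Real.exp_le_exp.2 (by linarith)

end Pool.Agent.Q278.KA
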