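import Pool.Agent.Q278.KA.D

/-!
# The tail of the linear statistic under RH (helper278)
-/

set_option autoImplicit false

namespace Pool.Agent.Q278.KA

open Filter Topology MeasureTheory
open H370 (Zf mult mem_Zf good_zeta NN NN_eq zcount)
open Pool.Agent.Q278.MC
open Pool.Agent.Q278.KM

/-- the measure of a set of `t` -/
noncomputable def ms (T : ℝ) (P : ℝ → Prop) : ℝ :=
  (volume.restrict (Set.Ioc (T + 2 * Real.log T) (2 * T - 2 * Real.log T))).real {t | P t}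

lemma ms_mono {T : ℝ} {P Q : ℝ → Prop} (h : ∀ t, T + 2 * Real.log T ≤ t → t ≤ 2 * T - 2 * Real.log T →
    P t → Q t) : ms T P ≤ ms T Q := by
  unfold ms Measure.real
  refine ENNReal.toReal_mono (measure_ne_top _ _) ?_
  refine measure_mono_ae ?_
  filter_upwards [ae_restrict_mem measurableSet_Ioc] with t ht hP
  exact h t ht.1.le ht.2 hP

lemma ms_or {T : ℝ} {P Q : ℝ → Prop} : ms T (fun t => P t ∨ Q t) ≤ ms T P + ms T Q := by
  unfold ms
  have : {t | P t ∨ Q t} = {t | P t} ∪ {t | Q t} := rfl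
  rw [this]
  exact measureReal_union_le _ _

lemma ms_nonneg (T : ℝ) (P : ℝ → Prop) : 0 ≤ ms T P := measureReal_nonneg

lemma Sf_anti {T a a' t : ℝ} (h0 : 0 ≤ a') (h : a' ≤ a) : Sf T a t ≤ Sf T a' t := by
  rw [Sf_kk, Sf_kk]
  refine Finset.sum_le_sum fun s _ => mul_le_mul_of_nonneg_left ?_ (mz_nonneg s)
  unfold kk
  have h1 : (a' * (s.im - t)) ^ 2 ≤ (a * (s.im - t)) ^ 2 := by
    rw [mul_pow, mul_pow]
    exact mul_le_mul_of_nonneg_right (pow_le_pow_left₀ h0 h 2) (sq_nonneg _)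
  exact inv_anti₀ (by positivity) (by linarith)

/-- the sum over the zeros against the smooth count -/
lemma SZ_Sf {f : ℝ → ℝ} (hf : CC (fc f)) : ∃ M T0 : ℝ, 1 ≤ M ∧ 10 ≤ T0 ∧ ∀ T a t : ℝ, T0 ≤ T → 1 ≤ a →
    T + Real.log T ≤ t → t ≤ 2 * T - Real.log T → |SZ f a t| ≤ M * Sf T a t := by
  obtain ⟨R, hR0, hR⟩ := exists_R hf
  obtain ⟨M, hM⟩ := (fc_cont hf).bounded_above_of_compact_support (f := f) (by
    refine HasCompactSupport.intro (isCompact_closedBall (0 : ℝ) R) fun x hx => hR x ?_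
    rw [Metric.mem_closedBall, dist_zero_right, Real.norm_eq_abs, not_le] at hx
    exact hx)
  have hM0 : 0 ≤ M := (norm_nonneg _).trans (hM 0)
  refine ⟨M * (1 + R ^ 2) + 1, max 10 (Real.exp (R + 1)), by nlinarith [sq_nonneg R], le_max_left _ _,
    fun T a t hT ha h1 h2 => ?_⟩
  have hT10 : 10 ≤ T := (le_max_left _ _).trans hT
  have hlR : R + 1 ≤ Real.log T := by
    rw [Real.le_log_iff_exp_le (by linarith)]
    exact (le_max_right _ _).trans hT
  rw [SZ_eq (A := T) (B := 2 * T) hR ha (by linarith) (by linarith) (by linarith), Sf_kk, Finset.mul_sum]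
  refine (Finset.abs_sum_le_sum_abs _ _).trans (Finset.sum_le_sum fun s _ => ?_)
  rw [abs_mul, abs_of_nonneg (mz_nonneg s)]
  set x := a * (s.im - t) with hx
  have hk := kk_pos x
  have h3 : |f x| ≤ (M * (1 + R ^ 2) + 1) * kk x := by
    rcases le_or_gt |x| R with h | h
    · have h4 : 1 ≤ (1 + R ^ 2) * kk x := by
        unfold kk
        rw [← div_eq_mul_inv, le_div_iff₀ (by positivity), one_mul]
        have : x ^ 2 ≤ R ^ 2 := by rw [← sq_abs]; exact pow_le_pow_left₀ (abs_nonneg _) h 2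
        linarith
      have h5 : |f x| ≤ M := hM x
      nlinarith
    · rw [hR x h, abs_zero]
      positivity
  calc mz s * |f x| ≤ mz s * ((M * (1 + R ^ 2) + 1) * kk x) :=
        mul_le_mul_of_nonneg_left h3 (mz_nonneg s)
    _ = _ := by ring

/-- the pointwise bound -/
theorem point (h : RiemannHypothesis) {f : ℝ → ℝ} (hf : CC (fc f)) : ∃ W0 K C T0 : ℝ, 1 ≤ W0 ∧ 1 ≤ K ∧
    1 ≤ C ∧ 10 ≤ T0 ∧
    -- first bound
    (∀ T L W a : ℝ, T0 ≤ T → 1 ≤ L → 2 ≤ a → 2 * Real.pi * a = Real.log T / L → 1 ≤ W → 2 * W ≤ L →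
      2 * W0 ≤ L → ∀ t : ℝ, T + 2 * Real.log T ≤ t → t ≤ 2 * T - 2 * Real.log T →
      |SZ f a t - L * ∫ x, f x| ≤ Gp f W a t + K * W⁻¹ ^ 4 * (L + Hp W0 a t) + 2 * K) ∧
    -- second bound
    (∀ T L L' a a' : ℝ, T0 ≤ T → 1 ≤ L → L ≤ L' → 2 ≤ a' → a' ≤ a →
      2 * Real.pi * a' = Real.log T / L' → 2 * W0 ≤ L' →
      ∀ t : ℝ, T + 2 * Real.log T ≤ t → t ≤ 2 * T - 2 * Real.log T →
      |SZ f a t - L * ∫ x, f x| ≤ C * (L' + Hp W0 a' t)) := by
  obtain ⟨K, T1, hK, hT1, h1⟩ := rh_approx h hf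
  obtain ⟨W0, C0, T2, hW0, hC0, hT2, h2⟩ := S_bound h
  obtain ⟨M, T3, hM, hT3, h3⟩ := SZ_Sf hf
  have hpi := Real.pi_gt_three
  refine ⟨W0, K * (1 + C0), M * C0 + |∫ x, f x|, max (max T1 T2) T3, hW0, by nlinarith, ?_,
    hT1.trans ((le_max_left _ _).trans (le_max_left _ _)), ?_, ?_⟩
  · have := abs_nonneg (∫ x, f x)
    nlinarith
  · intro T L W a hT hL ha haL hW hWL hWL0 t ht1 ht2
    have hTT1 : T1 ≤ T := ((le_max_left _ _).trans (le_max_left _ _)).trans hT
    have hTT2 : T2 ≤ T := ((le_max_right _ _).trans (le_max_left _ _)).trans hT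
    have hT10 : 10 ≤ T := hT1.trans hTT1
    have hl : 0 < Real.log T := Real.log_pos (by linarith)
    have hU : 16 ≤ 2 * W * (2 * Real.pi * a) := by
      have h1 : 12 ≤ 2 * Real.pi * a := by nlinarith
      nlinarith
    have g1 := h1 T hTT1 L W a (by linarith) hW (by linarith) haL hWL hU t (by linarith) (by linarith)
    have g2 := h2 T L a hTT2 hL ha haL hWL0 t ht1 ht2
    have hH := Hp_nonneg W0 a t
    have hW4 : 0 ≤ W⁻¹ ^ 4 := by positivity
    have g3 : Sf T a t + L ≤ (1 + C0) * (L + Hp W0 a t) := by nlinarith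
    have g4 : K * (W⁻¹ ^ 4 * (Sf T a t + L)) ≤ K * (W⁻¹ ^ 4 * ((1 + C0) * (L + Hp W0 a t))) := by
      gcongr
    have e : K * (W⁻¹ ^ 4 * ((1 + C0) * (L + Hp W0 a t))) =
        K * (1 + C0) * W⁻¹ ^ 4 * (L + Hp W0 a t) := by ring
    have g5 : 2 * K ≤ 2 * (K * (1 + C0)) := by nlinarith
    linarith
  · intro T L L' a a' hT hL hLL ha' haa haL hWL t ht1 ht2
    have hTT1 : T1 ≤ T := ((le_max_left _ _).trans (le_max_left _ _)).trans hT
    have hTT2 : T2 ≤ T := ((le_max_right _ _).trans (le_max_left _ _)).trans hT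
    have hTT3 : T3 ≤ T := (le_max_right _ _).trans hT
    have hT10 : 10 ≤ T := hT1.trans hTT1
    have hl : 0 < Real.log T := Real.log_pos (by linarith)
    have g1 := h3 T a t hTT3 (by linarith) (by linarith) (by linarith)
    have g2 := h2 T L' a' hTT2 (by linarith) ha' haL hWL t ht1 ht2
    have g3 := Sf_anti (T := T) (t := t) (by linarith : 0 ≤ a') haa
    have hH := Hp_nonneg W0 a' t
    refine (abs_sub _ _).trans ?_
    rw [abs_mul, abs_of_nonneg (by linarith : 0 ≤ L)]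
    have hI := abs_nonneg (∫ x, f x)
    have g4 : L * |∫ x, f x| ≤ (L' + Hp W0 a' t) * |∫ x, f x| :=
      mul_le_mul_of_nonneg_right (by linarith) hI
    have g5 : M * Sf T a t ≤ M * (C0 * L' + C0 * Hp W0 a' t) :=
      mul_le_mul_of_nonneg_left (g3.trans g2) (by linarith)
    have e : (M * C0 + |∫ x, f x|) * (L' + Hp W0 a' t) =
        M * (C0 * L' + C0 * Hp W0 a' t) + (L' + Hp W0 a' t) * |∫ x, f x| := by ring
    linarith

end Pool.Agent.Q278.KA
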