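import Pool.Agent.Q278.KA.E

/-!
# The tail of the linear statistic under RH, conclusion (helper278)
-/

set_option autoImplicit false

namespace Pool.Agent.Q278.KA

open Filter Topology MeasureTheory
open Pool.Agent.Q278.MC
open Pool.Agent.Q278.KM

/-- elementary facts on the heights -/
lemma log_four_le {T : ℝ} (hT : 64 ≤ T) : 4 * Real.log T ≤ T := by
  have hT0 : 0 < T := by linarith
  have h1 : Real.log (T / 16) ≤ T / 16 - 1 := Real.log_le_sub_one_of_pos (by positivity)
  have h2 : Real.log T = Real.log (T / 16) + Real.log 16 := by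
    rw [← Real.log_mul (by positivity) (by norm_num)]
    congr 1
    ring
  have h3 : Real.log 16 ≤ 3 := by
    have h4 : Real.log 16 = 4 * Real.log 2 := by
      rw [show (16 : ℝ) = 2 ^ (4 : ℕ) by norm_num, Real.log_pow]
      norm_num
    have h5 := Real.log_two_lt_d9
    linarith
  linarith

lemma aux1 {p A : ℝ} (hp : 3 < p) (hA : 2 ≤ A) : 1 ≤ 2 * p * A := by nlinarith

lemma aux2 {K W : ℝ} (hK : 1 ≤ K) (hW : 1 ≤ W) : 1 ≤ K * W := by nlinarith

lemma aux3 {K W : ℝ} (hK : 1 ≤ K) (hW : 1 ≤ W) : 16 * W ≤ 16 ^ 5 * K * W := by nlinarith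

lemma aux4 {W c : ℝ} (hW : 1 ≤ W) (hc : 0 < c) (h : 16 * W * c ≤ 1) : c ≤ 1 := by nlinarith

lemma aux5 {V c L W : ℝ} (hV : V ≤ c * L) (hW : 0 ≤ W) (hL : 0 ≤ L) (h : 16 * W * c ≤ 1) :
    16 * V * W ≤ L := by
  have h1 : 16 * V * W ≤ 16 * (c * L) * W := by gcongr
  nlinarith

lemma aux6 {V L W : ℝ} (hW : 1 ≤ W) (hV : 0 ≤ V) (h : 16 * V * W ≤ L) : 16 * V ≤ L := by nlinarith

lemma aux7 {V L W : ℝ} (hW : 0 < W) (hV : 32 ≤ V) (h : W * (16 * V) = L) : 2 * W ≤ L := by nlinarith

lemma aux8 {V c L K : ℝ} (hV : V ≤ c * L) (hK : 0 ≤ K) (hL : 0 ≤ L) (h : c * (16 ^ 5 * K) ≤ 1) :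
    16 * V * (16 ^ 4 * K) ≤ 1 * L := by
  have h2 : 16 * V * (16 ^ 4 * K) ≤ 16 * (c * L) * (16 ^ 4 * K) := by gcongr
  have h3 : 16 * (c * L) * (16 ^ 4 * K) = (c * (16 ^ 5 * K)) * L := by ring
  nlinarith

lemma aux9 {K w : ℝ} (h : K * w ≤ 1 / 16 ^ 4) (hK : 0 ≤ K) (hw0 : 0 ≤ w) (hw1 : w ≤ 1) :
    K * w ^ 4 ≤ 1 / 16 ^ 4 * w := by
  have e : K * w ^ 4 = (K * w) * w * (w * w) := by ring
  rw [e]
  have h5 : w * w ≤ 1 := by nlinarith
  have h6 : 0 ≤ K * w * w := by positivity
  nlinarith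

lemma aux10 {C e V : ℝ} (he : e ≤ 8) (hC : 0 ≤ C) (h : 32 * C ≤ V) : 4 * C * e ≤ V := by nlinarith

lemma aux11 {m W : ℝ} (hm : 0 ≤ m) (hW : 1 ≤ W) : m ≤ 16 * m * W := by nlinarith

lemma exp_two_le : Real.exp 2 ≤ 8 := by
  have h1 := Real.exp_one_lt_d9
  have h2 : Real.exp 2 = Real.exp 1 * Real.exp 1 := by rw [← Real.exp_add]; norm_num
  rw [h2]
  have h3 := Real.exp_pos 1
  nlinarith

/-- two polynomials -/
lemma two_tails {T C y V κ : ℝ} {m : ℕ} {G H : ℝ → ℝ} (hT : 0 < T) (hG : Continuous G)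
    (hG0 : ∀ t, 0 ≤ G t) (hH : Continuous H) (hH0 : ∀ t, 0 ≤ H t)
    (hx : T + 2 * Real.log T ≤ 2 * T - 2 * Real.log T) (hy : 0 < y) (hC : 0 ≤ C)
    (bG : ∫ t in (T + 2 * Real.log T)..(2 * T - 2 * Real.log T), G t ^ (2 * m) ≤ (C * m) ^ m * T)
    (bH : ∫ t in (T + 2 * Real.log T)..(2 * T - 2 * Real.log T), H t ^ (2 * m) ≤ (C * m) ^ m * T)
    (hq : C * m / y ^ 2 ≤ Real.exp (-κ)) (hm : 2 * V ≤ κ * m) {P : ℝ → Prop}
    (hP : ∀ t, T + 2 * Real.log T ≤ t → t ≤ 2 * T - 2 * Real.log T → P t → y < G t ∨ y < H t) :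
    ms T P ≤ 2 * T * Real.exp (-(2 * V)) := by
  have h1 := markov hG hG0 hx hy bG
  have h2 := markov hH hH0 hx hy bH
  have h3 := tail_pow (by positivity) hq hm
  have h4 : (C * m / y ^ 2) ^ m * T ≤ Real.exp (-(2 * V)) * T := mul_le_mul_of_nonneg_right h3 hT.le
  refine (ms_mono hP).trans (ms_or.trans ?_)
  unfold ms
  linarith

lemma low_pow {C : ℝ} {D : ℝ} (hCD : C ≤ D) (hC : 0 ≤ C) (m : ℕ) {T : ℝ} (hT : 0 ≤ T) :
    (C * m) ^ m * T ≤ (D * m) ^ m * T := by
  gcongr

/-- **the tail** -/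
theorem tail (h : RiemannHypothesis) {f : ℝ → ℝ} (hf : CC (fc f)) : ∃ L0 c T0 V0 : ℝ, 1 ≤ L0 ∧ 0 < c ∧
    10 ≤ T0 ∧ 1 ≤ V0 ∧ ∀ T L : ℝ, T0 ≤ T → L0 ≤ L → L ≤ c * Real.log T → ∀ V : ℕ, V0 ≤ V →
      ms T (fun t => (V : ℝ) < |st f L T t|) ≤ 2 * T * Real.exp (-(2 * V)) := by
  obtain ⟨W0, K, C0, T1, hW0, hK, hC0, hT1, hp1, hp2⟩ := point h hf
  obtain ⟨Cf, Af, hCf, hAf, hG⟩ := Gp_mom hf
  obtain ⟨Ch, Ah, hCh, hAh, hH⟩ := Hp_mom
  obtain ⟨Ct, R, hCt, hR, htr⟩ := st_triv hf
  have hpi := Real.pi_gt_three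
  have h2pi : 0 < 2 * Real.pi := by positivity
  set C := Cf + Ch with hC
  have hC1 : 1 ≤ C := by linarith
  set A1 := Af + Ah + R + 2 with hA1
  have hA1p : 2 ≤ A1 := by linarith
  set c0 := 1 / (2 * Real.pi * A1) with hc0
  have hc0p : 0 < c0 := by positivity
  have hc01 : c0 ≤ 1 := by
    rw [hc0, div_le_one (by positivity)]
    exact aux1 hpi hA1p
  set C' := 2 * C0 with hC'
  set c1 := 1 / (16 ^ 5 * K * W0) with hc1
  have hc1p : 0 < c1 := by positivity
  have hKW : 1 ≤ K * W0 := aux2 hK hW0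
  have hc1a : 16 * W0 * c1 ≤ 1 := by
    rw [hc1, mul_one_div, div_le_one (by positivity)]
    exact aux3 hK hW0
  set W1 := 8 * K / c1 with hW1
  have hc1b : c1 ≤ 1 := aux4 hW0 hc1p hc1a
  have hW11 : 1 ≤ W1 := by
    rw [hW1, le_div_iff₀ hc1p]
    linarith
  set W2 := W0 + W1 with hW2
  set Lb := 4 * C / c1 ^ 2 * Real.exp (64 * W2 * C') with hLb
  set Lc := C' ^ 2 * C * Real.exp (64 * W0 * C') with hLc
  have hLb0 : 0 ≤ Lb := by positivity
  have hLc0 : 0 ≤ Lc := by positivity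
  set ℓ0 := C' ^ 2 * C / (C' * c0) * Real.exp (64 * W0 * Ct / c0) with hℓ0
  refine ⟨64 * W2 + Lb + Lc, c0, max (max T1 64) (Real.exp (ℓ0 + 8)), 16 * K + 32 * C, by linarith, hc0p,
    hT1.trans ((le_max_left _ _).trans (le_max_left _ _)), by linarith,
    fun T L hT hL hLc0' V hV => ?_⟩
  have hTT1 : T1 ≤ T := ((le_max_left _ _).trans (le_max_left _ _)).trans hT
  have hT64 : 64 ≤ T := ((le_max_right _ _).trans (le_max_left _ _)).trans hT
  have hT0 : 0 < T := by linarith
  have hℓ : ℓ0 + 8 ≤ Real.log T := by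
    rw [Real.le_log_iff_exp_le hT0]
    exact (le_max_right _ _).trans hT
  have hℓ00 : 0 ≤ ℓ0 := by positivity
  set ℓ := Real.log T with hℓd
  have hl : 0 < ℓ := by linarith
  have hlT : 4 * ℓ ≤ T := log_four_le hT64
  have hx : T + 2 * ℓ ≤ 2 * T - 2 * ℓ := by linarith
  have hxT : 2 * T - 2 * ℓ - (T + 2 * ℓ) ≤ T := by linarith
  have hW2p : 2 ≤ W2 := by linarith
  have hLW : 64 * W2 ≤ L := by linarith
  have hL1 : 1 ≤ L := by linarith
  have hL0 : 0 < L := by linarith
  have hVr : 16 * K + 32 * C ≤ (V : ℝ) := hV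
  have hV1 : 32 ≤ (V : ℝ) := by linarith
  have hV0 : 0 < (V : ℝ) := by linarith
  set a := aP L T with ha
  have haL : 2 * Real.pi * a = ℓ / L := aP_eq hL0
  have haA : A1 ≤ a := by
    have h1 : 2 * Real.pi * A1 * L ≤ ℓ := by
      have : L * (2 * Real.pi * A1) ≤ ℓ := by
        have h2 : c0 * ℓ * (2 * Real.pi * A1) = ℓ := by rw [hc0]; field_simp
        rw [← h2]
        exact mul_le_mul_of_nonneg_right hLc0' (by positivity)
      linarith
    have h2 : 2 * Real.pi * A1 ≤ 2 * Real.pi * a := by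
      rw [haL, le_div_iff₀ hL0]
      exact h1
    exact le_of_mul_le_mul_left h2 h2pi
  have hst : ∀ t, st f L T t = SZ f a t - L * ∫ x, f x := fun t => rfl
  -- case distinction
  rcases le_or_gt (V : ℝ) (c1 * L) with hVA | hVA
  · -- case A
    set W := L / (16 * V) with hW
    have hV16 : 16 * (V : ℝ) * W0 ≤ L := aux5 hVA (by linarith) hL0.le hc1a
    have hV16' : 16 * (V : ℝ) ≤ L := aux6 hW0 hV0.le hV16
    have hWW : 1 ≤ W := by
      rw [hW, le_div_iff₀ (by positivity)]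
      linarith
    have hW0' : 0 < W := by linarith
    have h2W : 2 * W ≤ L := by
      have h1 : W * (16 * V) = L := by rw [hW]; field_simp
      exact aux7 hW0' hV1 h1
    have hWi : W⁻¹ = 16 * V / L := by rw [hW, inv_div]
    have hw : W⁻¹ ≤ 1 / (16 ^ 4 * K) := by
      rw [hWi, div_le_div_iff₀ hL0 (by positivity)]
      have h1 : c1 * (16 ^ 5 * K) ≤ 1 := by
        rw [hc1]
        rw [one_div, inv_mul_le_iff₀ (by positivity)]
        have : 16 ^ 5 * K ≤ 16 ^ 5 * K * W0 := le_mul_of_one_le_right (by positivity) hW0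
        linarith
      exact aux8 hVA (by linarith) hL0.le h1
    have hWi0 : 0 < W⁻¹ := by positivity
    have hWi1 : W⁻¹ ≤ 1 := inv_le_one_of_one_le₀ hWW
    have hKWi : K * W⁻¹ ≤ 1 / 16 ^ 4 := by
      calc K * W⁻¹ ≤ K * (1 / (16 ^ 4 * K)) := mul_le_mul_of_nonneg_left hw (by linarith)
        _ = _ := by field_simp
    have h4 : K * W⁻¹ ^ 4 ≤ 1 / 16 ^ 4 * W⁻¹ := aux9 hKWi (by linarith) hWi0.le hWi1
    have h7 : K * W⁻¹ ^ 4 * L ≤ V / 8 := by
      have h8 : W⁻¹ * L = 16 * V := by rw [hWi]; field_simp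
      have h9 : K * W⁻¹ ^ 4 * L ≤ 1 / 16 ^ 4 * W⁻¹ * L := mul_le_mul_of_nonneg_right h4 hL0.le
      have h9' : 1 / 16 ^ 4 * W⁻¹ * L = 1 / 16 ^ 4 * (16 * V) := by
        rw [mul_assoc (1 / 16 ^ 4 : ℝ), h8]
      rw [h9'] at h9
      linarith
    have h10 : K * W⁻¹ ^ 4 ≤ 1 / 8 := by
      have : 1 / 16 ^ 4 * W⁻¹ ≤ 1 / 8 := by linarith
      linarith
    have bG := hG T L W a V hT64 hL0 (by linarith) haL hWW (by
      have : (32 : ℝ) ≤ V := hV1
      exact_mod_cast (by linarith : (1 : ℝ) ≤ V)) (by rw [hW]; field_simp; linarith) _ _ hx hxT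
    have bH := hH T L W0 a V hT64 hL0 (by linarith) haL hW0 (by
      exact_mod_cast (by linarith : (1 : ℝ) ≤ V)) (by linarith) _ _ hx hxT
    refine two_tails (C := C) (y := V / 2) (κ := 2) (m := V) hT0 (Gp_cont f W a)
      (fun t => Gp_nonneg _ _ _ _) (Hp_cont W0 a) (fun t => Hp_nonneg _ _ _) hx (by linarith)
      (by linarith) (bG.trans (low_pow (by linarith) (by linarith) _ hT0.le))
      (bH.trans (low_pow (by linarith) (by linarith) _ hT0.le)) ?_ (by linarith)
      (fun t ht1 ht2 hP => ?_)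
    · have e : C * V / (V / 2) ^ 2 = 4 * C / V := by field_simp; ring
      rw [e, Real.exp_neg, div_le_iff₀ hV0, inv_mul_eq_div, le_div_iff₀ (Real.exp_pos _)]
      exact aux10 exp_two_le (by linarith) (by linarith)
    · have h11 := hp1 T L W a hTT1 hL1 (by linarith) haL hWW h2W (by linarith) t ht1 ht2
      rw [hst] at hP
      have hHn := Hp_nonneg W0 a t
      by_contra hcon
      push Not at hcon
      have h12 : K * W⁻¹ ^ 4 * Hp W0 a t ≤ 1 / 8 * Hp W0 a t := mul_le_mul_of_nonneg_right h10 hHn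
      have e : K * W⁻¹ ^ 4 * (L + Hp W0 a t) = K * W⁻¹ ^ 4 * L + K * W⁻¹ ^ 4 * Hp W0 a t := by ring
      linarith [hcon.1, hcon.2]
  rcases le_or_gt (V : ℝ) (C' * L) with hVB | hVB
  · -- case B
    set m := ⌊L / (16 * W2)⌋₊ with hm
    have hm1 : (m : ℝ) ≤ L / (16 * W2) := Nat.floor_le (by positivity)
    have hm2 : L / (16 * W2) < m + 1 := Nat.lt_floor_add_one _
    have hr4 : 4 ≤ L / (16 * W2) := by
      rw [le_div_iff₀ (by positivity)]
      linarith
    have hm3 : L / (32 * W2) ≤ m := by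
      have e : L / (16 * W2) = 2 * (L / (32 * W2)) := by field_simp; ring
      linarith
    have hm4 : 1 ≤ m := by
      have : (1 : ℝ) ≤ m := by linarith
      exact_mod_cast this
    have hmW : 16 * (m : ℝ) * W2 ≤ L := by
      rw [le_div_iff₀ (by positivity)] at hm1
      linarith
    have hmW1 : 16 * (m : ℝ) * W1 ≤ L := by
      have : 16 * (m : ℝ) * W1 ≤ 16 * (m : ℝ) * W2 := by gcongr; linarith
      linarith
    have hmW0 : 16 * (m : ℝ) * W0 ≤ L := by
      have : 16 * (m : ℝ) * W0 ≤ 16 * (m : ℝ) * W2 := by gcongr; linarith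
      linarith
    have hmL : (m : ℝ) ≤ L := (aux11 (Nat.cast_nonneg m) (by linarith)).trans hmW
    have bG := hG T L W1 a m hT64 hL0 (by linarith) haL hW11 hm4 hmW1 _ _ hx hxT
    have bH := hH T L W0 a m hT64 hL0 (by linarith) haL hW0 hm4 hmW0 _ _ hx hxT
    have hWi1 : W1⁻¹ ≤ 1 := inv_le_one_of_one_le₀ hW11
    have hWi0 : 0 < W1⁻¹ := by positivity
    have h4 : K * W1⁻¹ ^ 4 ≤ c1 / 8 := by
      have h5 : W1⁻¹ ^ 4 ≤ W1⁻¹ ^ 1 := pow_le_pow_of_le_one hWi0.le hWi1 (by norm_num)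
      rw [pow_one] at h5
      have h6 : K * W1⁻¹ = c1 / 8 := by rw [hW1, inv_div]; field_simp
      rw [← h6]
      exact mul_le_mul_of_nonneg_left h5 (by linarith)
    refine two_tails (C := C) (y := V / 2) (κ := 64 * W2 * C') (m := m) hT0 (Gp_cont f W1 a)
      (fun t => Gp_nonneg _ _ _ _) (Hp_cont W0 a) (fun t => Hp_nonneg _ _ _) hx (by linarith)
      (by linarith) (bG.trans (low_pow (by linarith) (by linarith) _ hT0.le))
      (bH.trans (low_pow (by linarith) (by linarith) _ hT0.le)) ?_ ?_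
      (fun t ht1 ht2 hP => ?_)
    · have h5 : C * m / (V / 2) ^ 2 ≤ 4 * C / (c1 ^ 2 * L) := by
        rw [div_le_div_iff₀ (by positivity) (by positivity)]
        have h6 : (c1 * L) ^ 2 ≤ (V : ℝ) ^ 2 := pow_le_pow_left₀ (by positivity) hVA.le 2
        have h7 : C * m * (c1 ^ 2 * L) ≤ C * L * (c1 ^ 2 * L) := by gcongr
        have h8 : C * L * (c1 ^ 2 * L) = C * (c1 * L) ^ 2 := by ring
        have h9 : 4 * C * (V / 2) ^ 2 = C * (V : ℝ) ^ 2 := by ring
        rw [h9]
        exact (h7.trans_eq h8).trans (mul_le_mul_of_nonneg_left h6 (by linarith))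
      refine h5.trans ?_
      rw [Real.exp_neg, div_le_iff₀ (by positivity), inv_mul_eq_div, le_div_iff₀ (Real.exp_pos _)]
      have h6 : 4 * C / c1 ^ 2 * Real.exp (64 * W2 * C') ≤ L := by linarith
      have h7 := mul_le_mul_of_nonneg_left h6 (by positivity : 0 ≤ c1 ^ 2)
      have h8 : c1 ^ 2 * (4 * C / c1 ^ 2 * Real.exp (64 * W2 * C')) =
          4 * C * Real.exp (64 * W2 * C') := by field_simp
      linarith
    · have h5 : 64 * W2 * C' * (L / (32 * W2)) ≤ 64 * W2 * C' * m :=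
        mul_le_mul_of_nonneg_left hm3 (by positivity)
      have h6 : 64 * W2 * C' * (L / (32 * W2)) = 2 * (C' * L) := by field_simp; ring
      linarith
    · have h11 := hp1 T L W1 a hTT1 hL1 (by linarith) haL hW11 (by linarith) (by linarith) t ht1 ht2
      rw [hst] at hP
      have hHn := Hp_nonneg W0 a t
      by_contra hcon
      push Not at hcon
      have h12 : K * W1⁻¹ ^ 4 * (L + Hp W0 a t) ≤ c1 / 8 * (L + Hp W0 a t) :=
        mul_le_mul_of_nonneg_right h4 (by positivity)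
      have h13 : c1 / 8 * Hp W0 a t ≤ 1 / 8 * Hp W0 a t := by gcongr
      have e : c1 / 8 * (L + Hp W0 a t) = c1 * L / 8 + c1 / 8 * Hp W0 a t := by ring
      linarith [hcon.1, hcon.2]
  · -- case C
    rcases le_or_gt (V : ℝ) (Ct * ℓ) with hVt | hVt
    · set L' := min (V / C') (c0 * ℓ) with hL'
      have hC'p : 0 < C' := by linarith
      have hLL' : L ≤ L' := by
        refine le_min ?_ hLc0'
        rw [le_div_iff₀ hC'p]
        linarith
      have hL'0 : 0 < L' := by linarith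
      have hL'V : L' ≤ V / C' := min_le_left _ _
      have hL'c : L' ≤ c0 * ℓ := min_le_right _ _
      set a' := aP L' T with ha'
      have haL' : 2 * Real.pi * a' = ℓ / L' := aP_eq hL'0
      have haA' : A1 ≤ a' := by
        have h1 : 2 * Real.pi * A1 * L' ≤ ℓ := by
          have : L' * (2 * Real.pi * A1) ≤ ℓ := by
            have h2 : c0 * ℓ * (2 * Real.pi * A1) = ℓ := by rw [hc0]; field_simp
            rw [← h2]
            exact mul_le_mul_of_nonneg_right hL'c (by positivity)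
          linarith
        have h2 : 2 * Real.pi * A1 ≤ 2 * Real.pi * a' := by
          rw [haL', le_div_iff₀ hL'0]
          exact h1
        exact le_of_mul_le_mul_left h2 h2pi
      have haa : a' ≤ a := by
        have h1 : 2 * Real.pi * a' ≤ 2 * Real.pi * a := by
          rw [haL', haL]
          exact div_le_div_of_nonneg_left hl.le hL0 hLL'
        exact le_of_mul_le_mul_left h1 h2pi
      set m := ⌊L' / (16 * W0)⌋₊ with hm
      have hm1 : (m : ℝ) ≤ L' / (16 * W0) := Nat.floor_le (by positivity)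
      have hm2 : L' / (16 * W0) < m + 1 := Nat.lt_floor_add_one _
      have hr4 : 4 ≤ L' / (16 * W0) := by
        rw [le_div_iff₀ (by positivity)]
        linarith
      have hm3 : L' / (32 * W0) ≤ m := by
        have e : L' / (16 * W0) = 2 * (L' / (32 * W0)) := by field_simp; ring
        linarith
      have hm4 : 1 ≤ m := by
        have : (1 : ℝ) ≤ m := by linarith
        exact_mod_cast this
      have hmW0 : 16 * (m : ℝ) * W0 ≤ L' := by
        rw [le_div_iff₀ (by positivity)] at hm1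
        linarith
      have hmV : (m : ℝ) ≤ V := by
        have hm0 : (0 : ℝ) ≤ m := Nat.cast_nonneg m
        have h1 : (m : ℝ) ≤ 16 * m * W0 := aux11 hm0 hW0
        have h2 : V / C' ≤ V := div_le_self hV0.le (by linarith)
        linarith
      have bH := hH T L' W0 a' m hT64 hL'0 (by linarith) haL' hW0 hm4 hmW0 _ _ hx hxT
      have hq0 : C * m / (V / C') ^ 2 ≤ C' ^ 2 * C / V := by
        have e : C' ^ 2 * C / V = C * V / (V / C') ^ 2 := by field_simp
        rw [e]
        gcongr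
      have hP : ∀ t, T + 2 * ℓ ≤ t → t ≤ 2 * T - 2 * ℓ → (V : ℝ) < |st f L T t| →
          V / C' < Hp W0 a' t ∨ V / C' < Hp W0 a' t := by
        intro t ht1 ht2 hP
        have h11 := hp2 T L L' a a' hTT1 hL1 hLL' (by linarith) haa haL' (by linarith) t ht1 ht2
        rw [hst] at hP
        left
        by_contra hcon
        push Not at hcon
        have h12 : C0 * (L' + Hp W0 a' t) ≤ C0 * (V / C' + V / C') := by gcongr
        have h13 : C0 * (V / C' + V / C') = V := by rw [hC']; field_simp; ring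
        linarith
      rcases min_choice (V / C') (c0 * ℓ) with hch | hch
      · -- small scale
        have hL'e : L' = V / C' := hch
        refine two_tails (C := C) (y := V / C') (κ := 64 * W0 * C') (m := m) hT0 (Hp_cont W0 a')
          (fun t => Hp_nonneg _ _ _) (Hp_cont W0 a') (fun t => Hp_nonneg _ _ _) hx (by positivity)
          (by linarith) (bH.trans (low_pow (by linarith) (by linarith) _ hT0.le))
          (bH.trans (low_pow (by linarith) (by linarith) _ hT0.le)) ?_ ?_ hP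
        · refine hq0.trans ?_
          rw [Real.exp_neg, div_le_iff₀ hV0, inv_mul_eq_div, le_div_iff₀ (Real.exp_pos _)]
          have h6 : C' ^ 2 * C * Real.exp (64 * W0 * C') ≤ L := by linarith
          have h7 : L ≤ C' * L := le_mul_of_one_le_left hL0.le (by linarith)
          linarith
        · have h5 : 64 * W0 * C' * (L' / (32 * W0)) ≤ 64 * W0 * C' * m :=
            mul_le_mul_of_nonneg_left hm3 (by positivity)
          have h6 : 64 * W0 * C' * (L' / (32 * W0)) = 2 * V := by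
            rw [hL'e]; field_simp; ring
          linarith
      · -- large scale
        have hL'e : L' = c0 * ℓ := hch
        refine two_tails (C := C) (y := V / C') (κ := 64 * W0 * Ct / c0) (m := m) hT0 (Hp_cont W0 a')
          (fun t => Hp_nonneg _ _ _) (Hp_cont W0 a') (fun t => Hp_nonneg _ _ _) hx (by positivity)
          (by linarith) (bH.trans (low_pow (by linarith) (by linarith) _ hT0.le))
          (bH.trans (low_pow (by linarith) (by linarith) _ hT0.le)) ?_ ?_ hP
        · refine hq0.trans ?_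
          have h5 : c0 * ℓ * C' ≤ V := by
            have : c0 * ℓ ≤ V / C' := by rw [← hL'e]; exact hL'V
            rwa [le_div_iff₀ hC'p] at this
          have h6 : C' ^ 2 * C / V ≤ C' ^ 2 * C / (c0 * ℓ * C') := by gcongr
          refine h6.trans ?_
          rw [Real.exp_neg, div_le_iff₀ (by positivity), inv_mul_eq_div, le_div_iff₀ (Real.exp_pos _)]
          have h7 : ℓ0 ≤ ℓ := by linarith
          have h8 : ℓ0 * (C' * c0) = C' ^ 2 * C * Real.exp (64 * W0 * Ct / c0) := by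
            rw [hℓ0]; field_simp
          rw [← h8]
          have h9 := mul_le_mul_of_nonneg_right h7 (by positivity : 0 ≤ C' * c0)
          linarith
        · have h5 : 64 * W0 * Ct / c0 * (L' / (32 * W0)) ≤ 64 * W0 * Ct / c0 * m :=
            mul_le_mul_of_nonneg_left hm3 (by positivity)
          have h6 : 64 * W0 * Ct / c0 * (L' / (32 * W0)) = 2 * (Ct * ℓ) := by
            rw [hL'e]; field_simp; ring
          linarith
    · -- empty set
      have hLℓ : L ≤ ℓ := hLc0'.trans (mul_le_of_le_one_left hl.le hc01)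
      have h1 : ms T (fun t => (V : ℝ) < |st f L T t|) ≤ ms T (fun _ => False) := by
        refine ms_mono fun t ht1 ht2 hP => ?_
        have h2 := htr L T t (by linarith) hL0.le hLℓ (by linarith) (by linarith) (by linarith)
        linarith
      refine h1.trans ?_
      unfold ms
      have e : {t : ℝ | False} = ∅ := by ext; simp
      rw [e, measureReal_empty]
      positivity

end Pool.Agent.Q278.KA
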