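import Pool.Agent.Q278.KA.F

/-!
# The exponential moments under RH are bounded (helper278)
-/

set_option autoImplicit false

namespace Pool.Agent.Q278.KA

open Filter Topology MeasureTheory
open Pool.Agent.Q278.MC
open Pool.Agent.Q278.KM

/-- layers of the exponential -/
lemma exp_layer {z : ℝ} {v N : ℕ} (hz : z ≤ N) : Real.exp z ≤ Real.exp v +
    ∑ V ∈ Finset.Ico v N, Real.exp (V + 1) * (if (V : ℝ) < z then 1 else 0) := by
  have h0 : ∀ V ∈ Finset.Ico v N, 0 ≤ Real.exp ((V : ℝ) + 1) * (if (V : ℝ) < z then 1 else 0) := by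
    intro V _
    split_ifs <;> positivity
  rcases le_or_gt z v with h | h
  · have h1 := Real.exp_le_exp.2 h
    have h2 := Finset.sum_nonneg h0
    linarith
  · have hz0 : 0 < z := lt_of_le_of_lt (Nat.cast_nonneg v) h
    obtain ⟨V, hV⟩ : ∃ V : ℕ, ⌈z⌉₊ = V + 1 := Nat.exists_eq_succ_of_ne_zero (Nat.ceil_pos.2 hz0).ne'
    have h1 : z ≤ (V : ℝ) + 1 := by
      have := Nat.le_ceil z
      rw [hV] at this
      push_cast at this
      exact this
    have h2 : (V : ℝ) < z := by
      have := Nat.ceil_lt_add_one hz0.le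
      rw [hV] at this
      push_cast at this
      linarith
    have h3 : v ≤ V := by
      have : (v : ℝ) < V + 1 := by linarith
      have : v < V + 1 := by exact_mod_cast this
      omega
    have h4 : V < N := by
      have : (V : ℝ) < N := by linarith
      exact_mod_cast this
    have h5 := Finset.single_le_sum h0 (Finset.mem_Ico.2 ⟨h3, h4⟩)
    rw [if_pos h2, mul_one] at h5
    have h6 := Real.exp_le_exp.2 h1
    have h7 := Real.exp_pos (v : ℝ)
    linarith

lemma exp_neg_nat_le (V : ℕ) : Real.exp (-(V : ℝ)) ≤ (1 / 2 : ℝ) ^ V := by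
  have h1 : Real.exp (-(V : ℝ)) = Real.exp (-1) ^ V := by
    rw [← Real.exp_nat_mul]
    congr 1
    ring
  rw [h1]
  refine pow_le_pow_left₀ (Real.exp_pos _).le ?_ V
  rw [Real.exp_neg, one_div]
  have := Real.add_one_le_exp (1 : ℝ)
  exact inv_anti₀ (by norm_num) (by linarith)

/-- tails give the exponential moment -/
lemma layer_cake {F : ℝ → ℝ} {T : ℝ} {v N : ℕ} (hx : T + 2 * Real.log T ≤ 2 * T - 2 * Real.log T)
    (hT : 0 ≤ T) (hl : 0 ≤ Real.log T)
    (hF : ContinuousOn F (Set.Icc (T + 2 * Real.log T) (2 * T - 2 * Real.log T)))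
    (hN : ∀ t, T + 2 * Real.log T ≤ t → t ≤ 2 * T - 2 * Real.log T → F t ≤ N)
    (hV : ∀ V : ℕ, v ≤ V → ms T (fun t => (V : ℝ) < F t) ≤ 2 * T * Real.exp (-(2 * V))) :
    ∫ t in (T + 2 * Real.log T)..(2 * T - 2 * Real.log T), Real.exp (F t) ≤
      (Real.exp v + 4 * Real.exp 1) * T := by
  set x1 := T + 2 * Real.log T with hx1
  set x2 := 2 * T - 2 * Real.log T with hx2
  set μ : Measure ℝ := volume.restrict (Set.Ioc x1 x2) with hμ
  have hFm : AEMeasurable F μ := (hF.mono Set.Ioc_subset_Icc_self).aemeasurable measurableSet_Ioc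
  have hS : ∀ V : ℕ, NullMeasurableSet {t | (V : ℝ) < F t} μ := fun V =>
    nullMeasurableSet_lt aemeasurable_const hFm
  have hind : ∀ V : ℕ, Integrable (Set.indicator {t | (V : ℝ) < F t} (fun _ => (1 : ℝ))) μ :=
    fun V => (integrable_const 1).indicator₀ (hS V)
  have hexp : IntegrableOn (fun t => Real.exp (F t)) (Set.Ioc x1 x2) volume := by
    have h1 : ContinuousOn (fun t => Real.exp (F t)) (Set.Icc x1 x2) := hF.rexp
    exact (h1.integrableOn_Icc).mono_set Set.Ioc_subset_Icc_self
  rw [intervalIntegral.integral_of_le hx]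
  have h1 : ∫ t, Real.exp (F t) ∂μ ≤ ∫ t, (Real.exp v + ∑ V ∈ Finset.Ico v N,
      Real.exp (V + 1) * Set.indicator {t | (V : ℝ) < F t} (fun _ => (1 : ℝ)) t) ∂μ := by
    refine integral_mono_ae hexp ?_ ?_
    · exact (integrable_const _).add (integrable_finsetSum _ fun V _ => (hind V).const_mul _)
    · filter_upwards [ae_restrict_mem measurableSet_Ioc] with t ht
      have h2 := exp_layer (v := v) (hN t ht.1.le ht.2)
      refine h2.trans (le_of_eq ?_)
      congr 1
  refine h1.trans ?_
  rw [integral_add (integrable_const _) (integrable_finsetSum _ fun V _ => (hind V).const_mul _),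
    integral_finsetSum _ fun V _ => (hind V).const_mul _, integral_const, smul_eq_mul]
  have h3 : μ.real Set.univ = x2 - x1 := by
    rw [hμ, Measure.real, Measure.restrict_apply_univ, Real.volume_Ioc,
      ENNReal.toReal_ofReal (by linarith)]
  have h4 : ∀ V ∈ Finset.Ico v N, ∫ t, Real.exp (V + 1) *
      Set.indicator {t | (V : ℝ) < F t} (fun _ => (1 : ℝ)) t ∂μ ≤
      2 * Real.exp 1 * T * (1 / 2 : ℝ) ^ V := by
    intro V hVm
    rw [integral_const_mul, integral_indicator₀ (hS V), setIntegral_const, smul_eq_mul, mul_one]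
    have h5 : μ.real {t | (V : ℝ) < F t} ≤ 2 * T * Real.exp (-(2 * V)) :=
      hV V (Finset.mem_Ico.1 hVm).1
    have h6 := exp_neg_nat_le V
    calc Real.exp ((V : ℝ) + 1) * μ.real {t | (V : ℝ) < F t} ≤
          Real.exp ((V : ℝ) + 1) * (2 * T * Real.exp (-(2 * V))) :=
          mul_le_mul_of_nonneg_left h5 (Real.exp_pos _).le
      _ = 2 * Real.exp 1 * T * Real.exp (-(V : ℝ)) := by
          have e : Real.exp (-(V : ℝ)) = Real.exp V * Real.exp (-(2 * (V : ℝ))) := by
            rw [← Real.exp_add]; congr 1; ring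
          rw [e, Real.exp_add]
          ring
      _ ≤ _ := mul_le_mul_of_nonneg_left h6 (by positivity)
  have h7 := Finset.sum_le_sum h4
  have h8 : ∑ V ∈ Finset.Ico v N, 2 * Real.exp 1 * T * (1 / 2 : ℝ) ^ V ≤ 2 * Real.exp 1 * T * 2 := by
    rw [← Finset.mul_sum]
    refine mul_le_mul_of_nonneg_left ?_ (by positivity)
    calc ∑ V ∈ Finset.Ico v N, (1 / 2 : ℝ) ^ V ≤ ∑ V ∈ Finset.range N, (1 / 2 : ℝ) ^ V := by
          refine Finset.sum_le_sum_of_subset_of_nonneg ?_ fun V _ _ => by positivity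
          intro V hVm
          rw [Finset.mem_range]
          exact (Finset.mem_Ico.1 hVm).2
      _ ≤ 2 := sum_geometric_two_le N
  rw [h3]
  have h9 : (x2 - x1) * Real.exp v ≤ T * Real.exp v :=
    mul_le_mul_of_nonneg_right (by linarith) (Real.exp_pos _).le
  have e : (Real.exp v + 4 * Real.exp 1) * T = T * Real.exp v + 2 * Real.exp 1 * T * 2 := by ring
  rw [e]
  linarith

/-- **the exponential moment in the middle** -/
theorem exp_mid (h : RiemannHypothesis) {f : ℝ → ℝ} (hf : CC (fc f)) : ∃ L0 c T0 C : ℝ, 1 ≤ L0 ∧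
    0 < c ∧ c ≤ 1 ∧ 64 ≤ T0 ∧ 0 < C ∧ ∀ T L : ℝ, T0 ≤ T → L0 ≤ L → L ≤ c * Real.log T →
      ∫ t in (T + 2 * Real.log T)..(2 * T - 2 * Real.log T), Real.exp |st f L T t| ≤ C * T := by
  obtain ⟨L0, c, T0, V0, hL0, hc, hT0, hV0, ht⟩ := tail h hf
  obtain ⟨Ct, R, hCt, hR, htr⟩ := st_triv hf
  obtain ⟨R', hR'0, hR'⟩ := exists_R hf
  have hpi := Real.pi_gt_three
  have hc' : 0 < 1 / (2 * Real.pi * (R + 1)) := by positivity
  refine ⟨L0, min (min c 1) (1 / (2 * Real.pi * (R + 1))), max (max T0 64) (R' + 3),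
    Real.exp ⌈V0⌉₊ + 4 * Real.exp 1, hL0, lt_min (lt_min hc one_pos) hc',
    (min_le_left _ _).trans (min_le_right _ _), (le_max_right _ _).trans (le_max_left _ _),
    by positivity, fun T L hT hL hLc => ?_⟩
  have hTT0 : T0 ≤ T := ((le_max_left _ _).trans (le_max_left _ _)).trans hT
  have hT64 : 64 ≤ T := ((le_max_right _ _).trans (le_max_left _ _)).trans hT
  have hTR : R' + 3 ≤ T := (le_max_right _ _).trans hT
  have hl : 0 < Real.log T := Real.log_pos (by linarith)
  have hl4 := log_four_le hT64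
  have hL1 : 0 < L := by linarith
  have hLc1 : L ≤ c * Real.log T := hLc.trans (mul_le_mul_of_nonneg_right
    ((min_le_left _ _).trans (min_le_left _ _)) hl.le)
  have hLc2 : L ≤ Real.log T := by
    have h1 : min (min c 1) (1 / (2 * Real.pi * (R + 1))) * Real.log T ≤ 1 * Real.log T :=
      mul_le_mul_of_nonneg_right ((min_le_left _ _).trans (min_le_right _ _)) hl.le
    linarith
  have hLc3 : L ≤ 1 / (2 * Real.pi * (R + 1)) * Real.log T :=
    hLc.trans (mul_le_mul_of_nonneg_right (min_le_right _ _) hl.le)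
  have haR : R + 1 ≤ aP L T := by
    have h1 : 2 * Real.pi * aP L T = Real.log T / L := aP_eq hL1
    have h2 : 2 * Real.pi * (R + 1) ≤ Real.log T / L := by
      rw [le_div_iff₀ hL1]
      rw [one_div, inv_mul_eq_div, le_div_iff₀ (by positivity)] at hLc3
      linarith
    rw [← h1] at h2
    exact le_of_mul_le_mul_left h2 (by positivity)
  have hcst := st_cont hf hR' (by linarith : 1 ≤ aP L T) hTR
  refine layer_cake (N := ⌈Ct * Real.log T⌉₊) (by linarith) (by linarith) hl.le
    ((hcst.mono (Set.Icc_subset_Icc (by linarith) (by linarith))).abs)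
    (fun t h1 h2 => (htr L T t (by linarith) hL1.le hLc2 haR (by linarith) (by linarith)).trans
      (Nat.le_ceil _)) fun V hV => ?_
  exact ht T L hTT0 hL hLc1 V ((Nat.le_ceil V0).trans (by exact_mod_cast hV))

/-- change of the reference height -/
lemma st_height {f : ℝ → ℝ} {L T T' t : ℝ} (hT : 1 < T) (hT' : 1 < T') (hL : 0 < L) :
    st f L T t = st f (L * Real.log T' / Real.log T) T' t +
      (L * Real.log T' / Real.log T - L) * ∫ x, f x := by
  have hl : 0 < Real.log T := Real.log_pos hT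
  have hl' : 0 < Real.log T' := Real.log_pos hT'
  have hL' : 0 < L * Real.log T' / Real.log T := by positivity
  have h1 : 2 * Real.pi * aP L T = Real.log T / L := aP_eq hL
  have h2 : 2 * Real.pi * aP (L * Real.log T' / Real.log T) T' =
      Real.log T' / (L * Real.log T' / Real.log T) := aP_eq hL'
  have h3 : Real.log T' / (L * Real.log T' / Real.log T) = Real.log T / L := by field_simp
  have h4 : aP L T = aP (L * Real.log T' / Real.log T) T' := by
    have h5 : 2 * Real.pi * aP L T = 2 * Real.pi * aP (L * Real.log T' / Real.log T) T' := by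
      rw [h1, h2, h3]
    exact mul_left_cancel₀ (by positivity) h5
  unfold st
  rw [h4]
  ring

/-- a piece of the dyadic interval -/
lemma piece {f : ℝ → ℝ} (hf : CC (fc f)) {L0 c T0 C : ℝ} (hT0 : 64 ≤ T0) (hC : 0 < C)
    (hc : 0 < c) (hc1 : c ≤ 1) (hL0 : 1 ≤ L0)
    (hm : ∀ T L : ℝ, T0 ≤ T → L0 ≤ L → L ≤ c * Real.log T →
      ∫ t in (T + 2 * Real.log T)..(2 * T - 2 * Real.log T), Real.exp |st f L T t| ≤ C * T)
    {R : ℝ} (hR : ∀ x, R < |x| → f x = 0)
    {θ T L x y : ℝ} (hθ : 7 / 10 ≤ θ) (hθ2 : θ ≤ 6 / 5) (hT : 2 * (T0 + |R| + 3) ≤ T) (hL : 2 * L0 ≤ L)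
    (hLc : L ≤ c * Real.log T) (hca : 1 ≤ aP L T)
    (hx : θ * T + 2 * Real.log (θ * T) ≤ x) (hxy : x ≤ y)
    (hy : y ≤ 2 * (θ * T) - 2 * Real.log (θ * T)) :
    ∫ t in x..y, Real.exp |st f L T t| ≤ Real.exp |∫ x, f x| * (C * (θ * T)) := by
  have hRa := abs_nonneg R
  have hRb := le_abs_self R
  have hT1 : 1 < T := by linarith
  have hTθ : (T0 + |R| + 3) ≤ θ * T := by nlinarith
  have hT1' : 1 < θ * T := by linarith
  have hl : 0 < Real.log T := Real.log_pos hT1
  have hl' : 0 < Real.log (θ * T) := Real.log_pos hT1'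
  have hL00 : 0 < L := by linarith
  have hθ0 : 0 < θ := by linarith
  have hlθ : Real.log (θ * T) = Real.log θ + Real.log T := Real.log_mul hθ0.ne' (by linarith)
  have hθl : |Real.log θ| ≤ 1 / 2 := by
    rw [abs_le]
    constructor
    · have h1 := Real.one_sub_inv_le_log_of_pos hθ0
      have h2 : θ⁻¹ ≤ 10 / 7 := by
        rw [inv_le_comm₀ hθ0 (by norm_num)]
        linarith
      linarith
    · have h1 := Real.log_le_sub_one_of_pos hθ0
      linarith
  have hl2 : 1 ≤ Real.log T := by
    rw [Real.le_log_iff_exp_le (by linarith)]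
    have := Real.exp_one_lt_d9
    linarith
  set L' := L * Real.log (θ * T) / Real.log T with hL'
  have hLL' : L' - L = L / Real.log T * Real.log θ := by
    rw [hL', hlθ]
    field_simp
    ring
  have hq : L / Real.log T ≤ 1 := by
    rw [div_le_one hl]
    nlinarith
  have hq0 : 0 ≤ L / Real.log T := by positivity
  have hd : |L' - L| ≤ 1 / 2 := by
    rw [hLL', abs_mul, abs_of_nonneg hq0]
    nlinarith [abs_nonneg (Real.log θ)]
  have hL'0 : L0 ≤ L' := by
    have := (abs_le.1 hd).1
    linarith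
  have hL'c : L' ≤ c * Real.log (θ * T) := by
    have h1 : L / Real.log T ≤ c := by rwa [div_le_iff₀ hl]
    have e : L' = L / Real.log T * Real.log (θ * T) := by rw [hL']; ring
    rw [e]
    exact mul_le_mul_of_nonneg_right h1 hl'.le
  have h1 := hm (θ * T) L' (by linarith) hL'0 hL'c
  have haL : aP L' (θ * T) = aP L T := by
    have h1 : 2 * Real.pi * aP L T = Real.log T / L := aP_eq hL00
    have h2 : 2 * Real.pi * aP L' (θ * T) = Real.log (θ * T) / L' := aP_eq (by linarith)
    have h3 : Real.log (θ * T) / L' = Real.log T / L := by rw [hL']; field_simp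
    have hpi := Real.pi_pos
    exact mul_left_cancel₀ (by positivity : (2 * Real.pi) ≠ 0) (by rw [h1, h2, h3])
  have hcst : ContinuousOn (st f L' (θ * T)) (Set.Icc (θ * T) (2 * (θ * T))) :=
    st_cont hf hR (by rw [haL]; exact hca) (by linarith)
  have hst : ∀ t, st f L T t = st f L' (θ * T) t + (L' - L) * ∫ x, f x := fun t =>
    st_height hT1 hT1' hL00
  have hpt : ∀ t, Real.exp |st f L T t| ≤ Real.exp |∫ x, f x| * Real.exp |st f L' (θ * T) t| := by
    intro t
    rw [← Real.exp_add]
    refine Real.exp_le_exp.2 ?_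
    rw [hst]
    refine (abs_add_le _ _).trans ?_
    rw [abs_mul]
    have := abs_nonneg (∫ x, f x)
    nlinarith
  have hsub : Set.Icc x y ⊆ Set.Icc (θ * T) (2 * (θ * T)) :=
    Set.Icc_subset_Icc (by linarith) (by linarith)
  have hsub2 : Set.Icc (θ * T + 2 * Real.log (θ * T)) (2 * (θ * T) - 2 * Real.log (θ * T)) ⊆
      Set.Icc (θ * T) (2 * (θ * T)) := Set.Icc_subset_Icc (by linarith) (by linarith)
  have hce : ContinuousOn (fun t => Real.exp |st f L' (θ * T) t|)
      (Set.Icc (θ * T) (2 * (θ * T))) := hcst.abs.rexp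
  have hcl : ContinuousOn (fun t => Real.exp |st f L T t|) (Set.Icc (θ * T) (2 * (θ * T))) := by
    simp only [hst]
    exact ((hcst.add continuousOn_const).abs).rexp
  have i1 : IntervalIntegrable (fun t => Real.exp |st f L T t|) volume x y := by
    apply ContinuousOn.intervalIntegrable
    rw [Set.uIcc_of_le hxy]
    exact hcl.mono hsub
  have i2 : IntervalIntegrable (fun t => Real.exp |st f L' (θ * T) t|) volume x y := by
    apply ContinuousOn.intervalIntegrable
    rw [Set.uIcc_of_le hxy]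
    exact hce.mono hsub
  have h2 : ∫ t in x..y, Real.exp |st f L T t| ≤
      Real.exp |∫ x, f x| * ∫ t in x..y, Real.exp |st f L' (θ * T) t| := by
    rw [← intervalIntegral.integral_const_mul]
    exact intervalIntegral.integral_mono_on hxy i1 (i2.const_mul _) fun t _ => hpt t
  have i3 : IntervalIntegrable (fun t => Real.exp |st f L' (θ * T) t|) volume
      (θ * T + 2 * Real.log (θ * T)) (2 * (θ * T) - 2 * Real.log (θ * T)) := by
    apply ContinuousOn.intervalIntegrable
    rw [Set.uIcc_of_le (by linarith)]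
    exact hce.mono hsub2
  have h3 : ∫ t in x..y, Real.exp |st f L' (θ * T) t| ≤
      ∫ t in (θ * T + 2 * Real.log (θ * T))..(2 * (θ * T) - 2 * Real.log (θ * T)),
        Real.exp |st f L' (θ * T) t| :=
    intervalIntegral.integral_mono_interval hx hxy hy
      (Eventually.of_forall fun t => (Real.exp_pos _).le) i3
  refine h2.trans (mul_le_mul_of_nonneg_left (h3.trans h1) (Real.exp_pos _).le)

/-- **the exponential moment** -/
theorem exp_full (h : RiemannHypothesis) {f : ℝ → ℝ} (hf : CC (fc f)) : ∃ L0 c T0 C : ℝ, 0 < L0 ∧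
    0 < c ∧ 0 < T0 ∧ 0 < C ∧ ∀ T L : ℝ, T0 ≤ T → L0 ≤ L → L ≤ c * Real.log T → 1 ≤ aP L T →
      ∫ t in T..(2 * T), Real.exp |st f L T t| ≤ C * T := by
  obtain ⟨L0, c, T0, C, hL0, hc, hc1, hT0, hC, hm⟩ := exp_mid h hf
  obtain ⟨R, hR0, hR⟩ := exists_R hf
  refine ⟨2 * L0, c, 2 * (T0 + |R| + 3) + 2000, 2 * (Real.exp |∫ x, f x| * C), by linarith, hc,
    by positivity, by positivity, fun T L hT hL hLc ha => ?_⟩
  have hRa := abs_nonneg R
  have hT1 : 2000 ≤ T := by linarith
  have hlog : Real.log T ≤ T / 100 := by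
    have h1 : Real.log (T / 200) ≤ T / 200 - 1 := Real.log_le_sub_one_of_pos (by positivity)
    have h2 : Real.log T = Real.log (T / 200) + Real.log 200 := by
      rw [← Real.log_mul (by positivity) (by norm_num)]
      congr 1
      ring
    have h3 : Real.log 200 ≤ 8 * Real.log 2 := by
      rw [show 8 * Real.log 2 = Real.log (2 ^ (8 : ℕ)) by rw [Real.log_pow]; norm_num]
      exact Real.log_le_log (by norm_num) (by norm_num)
    have h4 := Real.log_two_lt_d9
    linarith
  have hl7 : Real.log (7 / 10 * T) ≤ T / 100 :=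
    (Real.log_le_log (by positivity) (by linarith)).trans hlog
  have hl12 : Real.log (6 / 5 * T) ≤ T / 100 + 1 / 5 := by
    rw [Real.log_mul (by norm_num) (by linarith)]
    have := Real.log_le_sub_one_of_pos (show (0 : ℝ) < 6 / 5 by norm_num)
    linarith
  have p1 := piece hf hT0 hC hc hc1 hL0 hm hR (θ := 7 / 10) (T := T) (L := L) (x := T)
    (y := 13 / 10 * T) (by norm_num) (by norm_num) (by linarith) hL hLc ha (by linarith)
    (by linarith) (by linarith)
  have p2 := piece hf hT0 hC hc hc1 hL0 hm hR (θ := 6 / 5) (T := T) (L := L) (x := 13 / 10 * T)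
    (y := 2 * T) (by norm_num) (by norm_num) (by linarith) hL hLc ha (by linarith)
    (by linarith) (by linarith)
  have hcst := st_cont hf hR ha (by linarith [le_abs_self R] : R + 3 ≤ T)
  have hce : ContinuousOn (fun t => Real.exp |st f L T t|) (Set.Icc T (2 * T)) := hcst.abs.rexp
  have i1 : IntervalIntegrable (fun t => Real.exp |st f L T t|) volume T (13 / 10 * T) := by
    apply ContinuousOn.intervalIntegrable
    rw [Set.uIcc_of_le (by linarith)]
    exact hce.mono (Set.Icc_subset_Icc le_rfl (by linarith))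
  have i2 : IntervalIntegrable (fun t => Real.exp |st f L T t|) volume (13 / 10 * T) (2 * T) := by
    apply ContinuousOn.intervalIntegrable
    rw [Set.uIcc_of_le (by linarith)]
    exact hce.mono (Set.Icc_subset_Icc (by linarith) le_rfl)
  rw [← intervalIntegral.integral_add_adjacent_intervals i1 i2]
  have hE : 0 < Real.exp |∫ x, f x| * C := by positivity
  have e : Real.exp |∫ x, f x| * (C * (7 / 10 * T)) + Real.exp |∫ x, f x| * (C * (6 / 5 * T)) =
      19 / 10 * ((Real.exp |∫ x, f x| * C) * T) := by ring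
  have h3 : 0 < (Real.exp |∫ x, f x| * C) * T := by positivity
  linarith

end Pool.Agent.Q278.KA
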