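import Pool.Agent.Q278.KA.G
import Pool.Agent.Q278.KM.H

/-!
# Means of functions of exponential growth converge, under RH (helper278)
-/

set_option autoImplicit false

namespace Pool.Agent.Q278.KA

open Filter Topology MeasureTheory ProbabilityTheory
open Pool.Agent.Q278.MC
open Pool.Agent.Q278.KM

lemma exp_sum_le {k : ℕ} (a : Fin k → ℝ) :
    Real.exp (∑ j, a j) ≤ 1 + ∑ j, Real.exp (k * a j) := by
  have h0 : 0 ≤ ∑ j, Real.exp (k * a j) := Finset.sum_nonneg fun j _ => (Real.exp_pos _).le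
  rcases Nat.eq_zero_or_pos k with hk | hk
  · subst hk
    simp
  · have hne : (Finset.univ : Finset (Fin k)).Nonempty := ⟨⟨0, hk⟩, Finset.mem_univ _⟩
    obtain ⟨j0, -, hj0⟩ := Finset.exists_max_image Finset.univ a hne
    have h1 : ∑ j, a j ≤ k * a j0 := by
      have := Finset.sum_le_card_nsmul Finset.univ a (a j0) fun j hj => hj0 j hj
      rwa [Finset.card_univ, Fintype.card_fin, nsmul_eq_mul] at this
    have h2 := Real.exp_le_exp.2 h1
    have h3 := Finset.single_le_sum (f := fun j => Real.exp (k * a j))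
      (fun j _ => (Real.exp_pos _).le) (Finset.mem_univ j0)
    linarith

lemma norm_le_sum {k : ℕ} (x : EuclideanSpace ℝ (Fin k)) : ‖x‖ ≤ ∑ j, |x.ofLp j| := by
  have h0 : 0 ≤ ∑ j, |x.ofLp j| := Finset.sum_nonneg fun j _ => abs_nonneg _
  have h1 : ‖x‖ ^ 2 ≤ (∑ j, |x.ofLp j|) ^ 2 := by
    have h2 : ‖x‖ ^ 2 = ∑ j, |x.ofLp j| ^ 2 := by
      rw [EuclideanSpace.norm_sq_eq]
      rfl
    rw [h2]
    exact Finset.sum_sq_le_sq_sum_of_nonneg fun j _ => abs_nonneg _
  exact (abs_le_of_sq_le_sq' h1 h0).2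

lemma exp_norm_le {k : ℕ} (x : EuclideanSpace ℝ (Fin k)) {B : ℝ} (hB : 0 ≤ B) :
    Real.exp (B * ‖x‖) ≤ 1 + ∑ j, Real.exp |(k * B) * x.ofLp j| := by
  have h1 : B * ‖x‖ ≤ ∑ j, B * |x.ofLp j| := by
    rw [← Finset.mul_sum]
    exact mul_le_mul_of_nonneg_left (norm_le_sum x) hB
  refine (Real.exp_le_exp.2 h1).trans ((exp_sum_le _).trans (le_of_eq ?_))
  congr 1
  refine Finset.sum_congr rfl fun j _ => ?_
  rw [abs_mul, abs_of_nonneg (by positivity : 0 ≤ (k : ℝ) * B)]
  congr 1
  ring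

/-- the exponential moments stay bounded -/
lemma exp_ev (h : RiemannHypothesis) {f : ℝ → ℝ} (hf : CC (fc f)) {T L : ℕ → ℝ}
    (hT : Tendsto T atTop atTop)
    (hL : Tendsto L atTop atTop) (hLT : Tendsto (fun n => L n / Real.log (T n)) atTop (𝓝 0)) :
    ∃ C : ℝ, 0 < C ∧ ∀ᶠ n in atTop,
      (1 / T n) * ∫ t in (T n)..(2 * T n), Real.exp |st f (L n) (T n) t| ≤ C := by
  obtain ⟨L0, c, T0, C, hL0, hc, hT0, hC, hm⟩ := exp_full h hf
  refine ⟨C, hC, ?_⟩
  filter_upwards [hT.eventually_ge_atTop T0, hT.eventually_gt_atTop 1, hL.eventually_ge_atTop L0,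
    hLT.eventually_le_const (u := c) hc, (a_top hL hLT hT).eventually_ge_atTop 1]
    with n g1 g2 g3 g4 g5
  have hl : 0 < Real.log (T n) := Real.log_pos g2
  rw [div_le_iff₀ hl] at g4
  have h1 := hm (T n) (L n) g1 g3 g4 g5
  rw [one_div, inv_mul_le_iff₀ (by linarith)]
  linarith

lemma exp_ev_mul (h : RiemannHypothesis) {f : ℝ → ℝ} (hf : CC (fc f)) (c : ℝ) {T L : ℕ → ℝ}
    (hT : Tendsto T atTop atTop)
    (hL : Tendsto L atTop atTop) (hLT : Tendsto (fun n => L n / Real.log (T n)) atTop (𝓝 0)) :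
    ∃ C : ℝ, 0 < C ∧ ∀ᶠ n in atTop,
      (1 / T n) * ∫ t in (T n)..(2 * T n), Real.exp |c * st f (L n) (T n) t| ≤ C := by
  have hf' : ∀ j : Fin 1, CC (fc ((fun _ : Fin 1 => f) j)) := fun _ => hf
  obtain ⟨C, hC, hev⟩ := exp_ev h (lc_CC hf' (fun _ => c)) hT hL hLT
  obtain ⟨R, hR0, hR, hl⟩ := st_lc hf'
  refine ⟨C, hC, ?_⟩
  filter_upwards [hev, evs hT hL hLT R] with n h1 hn
  refine le_trans (le_of_eq ?_) h1
  congr 1
  refine intervalIntegral.integral_congr fun t ht => ?_
  rw [Set.uIcc_of_le (by linarith)] at ht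
  show Real.exp |c * st f (L n) (T n) t| =
    Real.exp |st (lc (fun _ : Fin 1 => f) (fun _ => c)) (L n) (T n) t|
  rw [hl (fun _ => c) (L n) (T n) t hn.2.2 hn.2.1 ht.1]
  simp

lemma sq_growth {A y u : ℝ} (h : |u| ≤ A * Real.exp (A * y)) :
    u ^ 2 ≤ A ^ 2 * Real.exp (2 * A * y) := by
  have h1 : u ^ 2 ≤ (A * Real.exp (A * y)) ^ 2 := by
    rw [← sq_abs]
    exact pow_le_pow_left₀ (abs_nonneg _) h 2
  refine h1.trans (le_of_eq ?_)
  rw [mul_pow, ← Real.exp_nat_mul]
  congr 2
  push_cast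
  ring

/-- **the means of all continuous functions of exponential growth converge** -/
theorem joint_exp (h : RiemannHypothesis) {k : ℕ} {f : Fin k → ℝ → ℝ} (hf : ∀ j, CC (fc (f j)))
    {T L : ℕ → ℝ} (hT : Tendsto T atTop atTop)
    (hL : Tendsto L atTop atTop) (hLT : Tendsto (fun n => L n / Real.log (T n)) atTop (𝓝 0))
    {φ : EuclideanSpace ℝ (Fin k) → ℝ} (hφc : Continuous φ) {A : ℝ}
    (hφ : ∀ x, |φ x| ≤ A * Real.exp (A * ‖x‖)) :
    Tendsto (fun n => (1 / T n) * ∫ t in (T n)..(2 * T n), φ (vc f (L n) (T n) t)) atTop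
      (𝓝 (∫ x, φ x ∂(multivariateGaussian 0 (cm f)))) := by
  have hA : 0 ≤ A := by
    have h1 := (abs_nonneg _).trans (hφ 0)
    rw [norm_zero, mul_zero, Real.exp_zero, mul_one] at h1
    exact h1
  have hj := joint hf hT hL hLT
  obtain ⟨R, hR0, hR, -⟩ := st_lc hf
  have hev := evs hT hL hLT R
  have hcont : ∀ᶠ n in atTop, 0 < T n ∧
      ContinuousOn (vc f (L n) (T n)) (Set.Icc (T n) (2 * T n)) := by
    filter_upwards [hev] with n hn
    refine ⟨hn.1, ?_⟩
    unfold vc
    refine (PiLp.continuous_toLp 2 _).comp_continuousOn ?_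
    exact continuousOn_pi.2 fun j => st_cont (hf j) (hR j) hn.2.2 hn.2.1
  choose C hC0 hC using fun j => exp_ev_mul h (hf j) (k * (2 * A)) hT hL hLT
  have hb : ∀ᶠ n in atTop, (1 / T n) * ∫ t in (T n)..(2 * T n), φ (vc f (L n) (T n) t) ^ 2 ≤
      A ^ 2 * (1 + ∑ j, C j) := by
    filter_upwards [hcont, eventually_all.2 hC, hev] with n h1 h2 h3
    have hle : T n ≤ 2 * T n := by linarith [h1.1]
    have hs : ∀ j, ContinuousOn (st (f j) (L n) (T n)) (Set.Icc (T n) (2 * T n)) :=
      fun j => st_cont (hf j) (hR j) h3.2.2 h3.2.1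
    have hsc : ∀ j, ContinuousOn (fun t => Real.exp |k * (2 * A) * st (f j) (L n) (T n) t|)
        (Set.Icc (T n) (2 * T n)) := fun j => (continuousOn_const.mul (hs j)).abs.rexp
    have hsj : ∀ j, IntervalIntegrable (fun t => Real.exp |k * (2 * A) * st (f j) (L n) (T n) t|)
        volume (T n) (2 * T n) := by
      intro j
      apply ContinuousOn.intervalIntegrable
      rw [Set.uIcc_of_le hle]
      exact hsc j
    have hsum : IntervalIntegrable (fun t => ∑ j, Real.exp |k * (2 * A) * st (f j) (L n) (T n) t|)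
        volume (T n) (2 * T n) := by
      apply ContinuousOn.intervalIntegrable
      rw [Set.uIcc_of_le hle]
      exact continuousOn_finsetSum _ fun j _ => hsc j
    have h4 : ∫ t in (T n)..(2 * T n), φ (vc f (L n) (T n) t) ^ 2 ≤
        ∫ t in (T n)..(2 * T n), A ^ 2 * (1 +
          ∑ j, Real.exp |k * (2 * A) * st (f j) (L n) (T n) t|) := by
      refine intervalIntegral.integral_mono_on hle ?_ ?_ fun t _ => ?_
      · apply ContinuousOn.intervalIntegrable
        rw [Set.uIcc_of_le hle]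
        exact (hφc.comp_continuousOn h1.2).pow 2
      · exact (intervalIntegrable_const.add hsum).const_mul _
      · refine (sq_growth (hφ (vc f (L n) (T n) t))).trans ?_
        refine mul_le_mul_of_nonneg_left ?_ (by positivity)
        exact exp_norm_le (vc f (L n) (T n) t) (by positivity)
    have h5 : ∫ t in (T n)..(2 * T n), A ^ 2 * (1 +
          ∑ j, Real.exp |k * (2 * A) * st (f j) (L n) (T n) t|) =
        A ^ 2 * (T n + ∑ j, ∫ t in (T n)..(2 * T n),
          Real.exp |k * (2 * A) * st (f j) (L n) (T n) t|) := by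
      rw [intervalIntegral.integral_const_mul, intervalIntegral.integral_add
        intervalIntegrable_const hsum, intervalIntegral.integral_const,
        intervalIntegral.integral_finsetSum fun j _ => hsj j]
      simp only [smul_eq_mul]
      ring
    have hTn := h1.1
    calc (1 / T n) * ∫ t in (T n)..(2 * T n), φ (vc f (L n) (T n) t) ^ 2 ≤
        (1 / T n) * (A ^ 2 * (T n + ∑ j, ∫ t in (T n)..(2 * T n),
          Real.exp |k * (2 * A) * st (f j) (L n) (T n) t|)) :=
          mul_le_mul_of_nonneg_left (h4.trans h5.le) (by positivity)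
      _ = A ^ 2 * (1 + ∑ j, (1 / T n) * ∫ t in (T n)..(2 * T n),
          Real.exp |k * (2 * A) * st (f j) (L n) (T n) t|) := by
          rw [← Finset.mul_sum]
          field_simp
      _ ≤ _ := by
          have := Finset.sum_le_sum (s := Finset.univ) fun (j : Fin k) _ => h2 j
          gcongr
  have hGi : Integrable (fun x => φ x ^ 2)
      ((gP f : ProbabilityMeasure (EuclideanSpace ℝ (Fin k))) : Measure _) := by
    rw [gP_coe]
    obtain ⟨D, hD, hDi⟩ := IsGaussian.exists_integrable_exp_sq (multivariateGaussian 0 (cm f))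
    refine (hDi.const_mul (A ^ 2 * Real.exp (A ^ 2 / D))).mono'
      (hφc.pow 2).aestronglyMeasurable (Eventually.of_forall fun x => ?_)
    rw [Real.norm_of_nonneg (by positivity)]
    refine (sq_growth (hφ x)).trans ?_
    rw [mul_assoc (A ^ 2), ← Real.exp_add]
    refine mul_le_mul_of_nonneg_left (Real.exp_le_exp.2 ?_) (by positivity)
    have h1 : 0 ≤ (A / D - ‖x‖) ^ 2 * D := by positivity
    have e : (A / D - ‖x‖) ^ 2 * D = A ^ 2 / D - 2 * A * ‖x‖ + D * ‖x‖ ^ 2 := by
      field_simp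
      ring
    linarith
  have h := ui_lim (gP f) hφc hcont hj hb hGi
  rw [gP_coe] at h
  exact h

end Pool.Agent.Q278.KA
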