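import Mathlib

/-!
# The complex exponential moment of a Gaussian vector (helper278)
-/

set_option autoImplicit false

namespace Pool.Agent.Q278.KA

open MeasureTheory ProbabilityTheory Complex Matrix
open scoped MatrixOrder

/-- one coordinate -/
lemma gauss_one (w : ℂ) : ∫ x : ℝ, cexp (w * (x : ℂ)) ∂(gaussianReal 0 1) = cexp (w ^ 2 / 2) := by
  have h := complexMGF_id_gaussianReal (μ := 0) (v := 1) w
  unfold complexMGF at h
  simp only [id_eq] at h
  rw [h]
  congr 1
  push_cast
  ring

/-- a linear form of independent coordinates -/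
lemma gauss_pi {k : ℕ} (w : Fin k → ℂ) :
    ∫ x : EuclideanSpace ℝ (Fin k), cexp (∑ j, w j * (x.ofLp j : ℂ)) ∂(stdGaussian
      (EuclideanSpace ℝ (Fin k))) = cexp ((∑ j, w j ^ 2) / 2) := by
  rw [← map_pi_eq_stdGaussian, integral_map (by fun_prop) (by fun_prop)]
  simp only [Complex.exp_sum]
  rw [integral_fintype_prod_eq_prod (f := fun j (x : ℝ) => cexp (w j * (x : ℂ)))]
  simp only [gauss_one]
  rw [← Complex.exp_sum, Finset.sum_div]

/-- **the complex exponential moment** -/
theorem gauss_exp {k : ℕ} {S : Matrix (Fin k) (Fin k) ℝ} (hS : S.PosSemidef) (z : Fin k → ℂ) :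
    ∫ x : EuclideanSpace ℝ (Fin k), cexp (∑ i, z i * (x.ofLp i : ℂ)) ∂(multivariateGaussian 0 S) =
      cexp ((∑ i, ∑ j, z i * z j * (S i j : ℂ)) / 2) := by
  unfold multivariateGaussian
  rw [integral_map (by fun_prop) (by fun_prop)]
  set A := CFC.sqrt S with hA
  have hsa : ∀ i j, A i j = A j i := by
    intro i j
    have h1 := (CFC.sqrt_nonneg S).isSelfAdjoint
    have h2 : star A = A := h1
    have h3 := congrFun (congrFun h2 j) i
    rw [Matrix.star_apply] at h3
    simpa using h3
  have hAA : A * A = S := CFC.sqrt_mul_sqrt_self _ hS.nonneg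
  have e1 : ∀ x : EuclideanSpace ℝ (Fin k), ∑ i, z i *
      (((0 : EuclideanSpace ℝ (Fin k)) + toEuclideanCLM (𝕜 := ℝ) A x).ofLp i : ℂ) =
      ∑ j, (∑ i, z i * (A i j : ℂ)) * (x.ofLp j : ℂ) := by
    intro x
    rw [zero_add, ofLp_toEuclideanCLM]
    unfold Matrix.mulVec dotProduct
    push_cast
    simp only [Finset.mul_sum, Finset.sum_mul]
    rw [Finset.sum_comm]
    refine Finset.sum_congr rfl fun j _ => Finset.sum_congr rfl fun i _ => ?_
    ring
  simp only [e1]
  rw [gauss_pi]
  congr 2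
  have e2 : ∀ i j, (S i j : ℂ) = ∑ l, (A i l : ℂ) * (A j l : ℂ) := by
    intro i j
    rw [← hAA, Matrix.mul_apply]
    push_cast
    refine Finset.sum_congr rfl fun l _ => ?_
    rw [hsa l j]
  simp only [e2, sq, Finset.mul_sum, Finset.sum_mul]
  rw [Finset.sum_comm]
  refine Finset.sum_congr rfl fun i _ => ?_
  rw [Finset.sum_comm]
  refine Finset.sum_congr rfl fun j _ => Finset.sum_congr rfl fun l _ => ?_
  ring

end Pool.Agent.Q278.KA
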