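import Pool.Agent.Q278.KA.H
import Pool.Agent.Q278.KA.J

/-!
# Complex test functions (helper278)
-/

set_option autoImplicit false

namespace Pool.Agent.Q278.KA

open Filter Topology MeasureTheory ProbabilityTheory Complex
open scoped FourierTransform ContDiff ComplexConjugate
open H370 (Zf mult mem_Zf good_zeta zset finsum_Zf)
open Pool.Agent.Q278.MC
open Pool.Agent.Q278.KM

/-- the sum over all zeros of a complex valued function -/
noncomputable def SC (f : ℝ → ℂ) (a t : ℝ) : ℂ :=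
  ∑ᶠ s ∈ {s : ℂ | riemannZeta s = 0 ∧ 0 < s.re ∧ s.re < 1},
    (analyticOrderNatAt riemannZeta s : ℂ) * f (a * (s.im - t))

lemma SC_eq {f : ℝ → ℂ} {R : ℝ} (hR : ∀ x, R < |x| → f x = 0) {a A B t : ℝ}
    (ha : 1 ≤ a) (hA : 1 ≤ A) (h1 : A < t - R) (h2 : t + R ≤ B) :
    SC f a t = ∑ s ∈ Zf riemannZeta A B, (mz s : ℂ) * f (a * (s.im - t)) := by
  have e1 : ∑ s ∈ Zf riemannZeta A B, (mz s : ℂ) * f (a * (s.im - t)) =
      ∑ᶠ s ∈ zset riemannZeta A B, (mz s : ℂ) * f (a * (s.im - t)) :=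
    (finsum_Zf good_zeta hA _).symm
  rw [e1]
  unfold SC
  have e2 : ∀ s : ℂ, ((analyticOrderNatAt riemannZeta s : ℕ) : ℂ) = ((mz s : ℝ) : ℂ) := by
    intro s
    unfold mz mult
    push_cast
    rfl
  simp only [e2]
  apply finsum_mem_inter_support_eq
  ext s
  simp only [Set.mem_inter_iff, Set.mem_ofPred_eq, Function.mem_support]
  constructor
  · rintro ⟨⟨k1, k2, k3⟩, k4⟩
    refine ⟨?_, k4⟩
    have k5 : f (a * (s.im - t)) ≠ 0 := right_ne_zero_of_mul k4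
    have k6 : |a * (s.im - t)| ≤ R := by
      by_contra h
      push Not at h
      exact k5 (hR _ h)
    rw [abs_mul, abs_of_pos (by linarith : (0 : ℝ) < a)] at k6
    have k7 : |s.im - t| ≤ R := by
      refine le_trans ?_ k6
      exact le_mul_of_one_le_left (abs_nonneg _) ha
    have k8 := abs_le.1 k7
    exact ⟨k2, k3, by linarith [k8.1], by linarith [k8.2], k1⟩
  · rintro ⟨⟨k1, k2, -, -, k3⟩, k4⟩
    exact ⟨⟨k3, k1, k2⟩, k4⟩

/-- the centred statistic of a complex valued function -/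
noncomputable def stC (f : ℝ → ℂ) (L T t : ℝ) : ℂ := SC f (aP L T) t - L * ∫ x, f x

/-- real and imaginary parts of the test function -/
def pr (f : ℝ → ℂ) : Fin 2 → ℝ → ℝ := ![fun x => (f x).re, fun x => (f x).im]

lemma pr_CC {f : ℝ → ℂ} (hf : CC f) (j : Fin 2) : CC (fc (pr f j)) := by
  fin_cases j
  · constructor
    · exact Complex.ofRealCLM.contDiff.comp (Complex.reCLM.contDiff.comp hf.cd)
    · exact hf.cs.comp_left (g := fun z : ℂ => ((z.re : ℝ) : ℂ)) (by simp)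
  · constructor
    · exact Complex.ofRealCLM.contDiff.comp (Complex.imCLM.contDiff.comp hf.cd)
    · exact hf.cs.comp_left (g := fun z : ℂ => ((z.im : ℝ) : ℂ)) (by simp)

lemma stC_eq {f : ℝ → ℂ} (hf : CC f) : ∃ R : ℝ, 0 ≤ R ∧ (∀ j, ∀ x, R < |x| → pr f j x = 0) ∧
    ∀ L T t : ℝ, 1 ≤ aP L T → R + 3 ≤ T → T ≤ t →
      stC f L T t = (st (pr f 0) L T t : ℂ) + (st (pr f 1) L T t : ℂ) * I := by
  choose R hR0 hR using fun j => exists_R (pr_CC hf j)
  have hRj : ∀ j, R j ≤ ∑ i, R i := fun j =>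
    Finset.single_le_sum (fun i _ => hR0 i) (Finset.mem_univ j)
  have hRR : ∀ j, ∀ x, ∑ i, R i < |x| → pr f j x = 0 := fun j x hx => hR j x ((hRj j).trans_lt hx)
  refine ⟨∑ j, R j, Finset.sum_nonneg fun j _ => hR0 j, hRR, fun L T t ha hT ht => ?_⟩
  set R' := ∑ j, R j with hR'
  have h0 : 0 ≤ R' := Finset.sum_nonneg fun j _ => hR0 j
  have hfR : ∀ x, R' < |x| → f x = 0 := by
    intro x hx
    have h1 := hRR 0 x hx
    have h2 := hRR 1 x hx
    exact Complex.ext h1 h2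
  unfold stC st
  rw [SC_eq (A := t - R' - 1) (B := t + R') hfR ha (by linarith) (by linarith) le_rfl,
    SZ_eq (A := t - R' - 1) (B := t + R') (hRR 0) ha (by linarith) (by linarith) le_rfl,
    SZ_eq (A := t - R' - 1) (B := t + R') (hRR 1) ha (by linarith) (by linarith) le_rfl]
  have e1 : ∫ x, f x = ((∫ x, pr f 0 x : ℝ) : ℂ) + ((∫ x, pr f 1 x : ℝ) : ℂ) * I :=
    (integral_re_add_im hf.int).symm
  have e2 : ∑ s ∈ Zf riemannZeta (t - R' - 1) (t + R'), (mz s : ℂ) * f (aP L T * (s.im - t)) =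
      ((∑ s ∈ Zf riemannZeta (t - R' - 1) (t + R'), mz s * pr f 0 (aP L T * (s.im - t)) : ℝ) : ℂ) +
      ((∑ s ∈ Zf riemannZeta (t - R' - 1) (t + R'), mz s * pr f 1 (aP L T * (s.im - t)) : ℝ) : ℂ) * I := by
    push_cast
    rw [Finset.sum_mul, ← Finset.sum_add_distrib]
    refine Finset.sum_congr rfl fun s _ => ?_
    have h3 : ∀ x, f x = (pr f 0 x : ℂ) + (pr f 1 x : ℂ) * I := fun x => (Complex.re_add_im (f x)).symm
    rw [h3]
    push_cast
    ring
  rw [e1, e2]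
  push_cast
  ring

/-- exponential moments of the norm of a Gaussian vector -/
lemma gauss_norm {k : ℕ} (S : Matrix (Fin k) (Fin k) ℝ) (B : ℝ) :
    Integrable (fun x : EuclideanSpace ℝ (Fin k) => Real.exp (B * ‖x‖)) (multivariateGaussian 0 S) := by
  obtain ⟨D, hD, hDi⟩ := IsGaussian.exists_integrable_exp_sq (multivariateGaussian 0 S)
  refine (hDi.const_mul (Real.exp (B ^ 2 / D))).mono' (by fun_prop)
    (Eventually.of_forall fun x => ?_)
  rw [Real.norm_of_nonneg (Real.exp_pos _).le, ← Real.exp_add]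
  refine Real.exp_le_exp.2 ?_
  have h1 : 0 ≤ (B / (2 * D) - ‖x‖) ^ 2 * D := by positivity
  have e : (B / (2 * D) - ‖x‖) ^ 2 * D = B ^ 2 / (4 * D) - B * ‖x‖ + D * ‖x‖ ^ 2 := by
    field_simp
    ring
  have h2 : B ^ 2 / (4 * D) ≤ B ^ 2 / D := by
    apply div_le_div_of_nonneg_left (by positivity) hD
    linarith
  linarith

/-- the Fourier transform and the real and imaginary parts -/
lemma four_pr {f : ℝ → ℂ} (hf : CC f) (ξ : ℝ) :
    𝓕 f ξ = 𝓕 (fc (pr f 0)) ξ + 𝓕 (fc (pr f 1)) ξ * I := by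
  have h1 := (pr_CC hf 0).int
  have h2 := (pr_CC hf 1).int
  have e : f = fun x => fc (pr f 0) x + fc (pr f 1) x * I := by
    funext x
    exact (Complex.re_add_im (f x)).symm
  conv_lhs => rw [e]
  rw [Real.fourier_real_eq_integral_exp_smul, Real.fourier_real_eq_integral_exp_smul,
    Real.fourier_real_eq_integral_exp_smul]
  have hk : ∀ {g : ℝ → ℂ}, CC g → Integrable fun v : ℝ =>
      Complex.exp (↑(-2 * Real.pi * v * ξ) * Complex.I) • g v := by
    intro g hg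
    refine hg.int.norm.mono' ?_ (Eventually.of_forall fun v => ?_)
    · refine Continuous.aestronglyMeasurable ?_
      exact ((Complex.continuous_exp.comp (by fun_prop))).smul hg.cont
    · rw [norm_smul, Complex.norm_exp_ofReal_mul_I, one_mul]
  rw [← integral_mul_const, ← integral_add (hk (pr_CC hf 0)) ((hk (pr_CC hf 1)).mul_const I)]
  refine integral_congr_ae (Eventually.of_forall fun v => ?_)
  simp only [smul_eq_mul]
  ring

/-- the limiting exponent -/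
lemma expo {f : ℝ → ℂ} (hf : CC f) :
    ∫ ξ : ℝ, ((|ξ| : ℝ) : ℂ) * (𝓕 f ξ * 𝓕 f (-ξ)) =
      ((cv (pr f 0) (pr f 0) - cv (pr f 1) (pr f 1) : ℝ) : ℂ) +
        ((2 * cv (pr f 0) (pr f 1) : ℝ) : ℂ) * I := by
  have hp : ∀ ξ : ℝ, ((|ξ| : ℝ) : ℂ) * (𝓕 f ξ * 𝓕 f (-ξ)) =
      ((|ξ| * (𝓕 (fc (pr f 0)) ξ * conj (𝓕 (fc (pr f 0)) ξ)).re : ℝ) : ℂ) -
      ((|ξ| * (𝓕 (fc (pr f 1)) ξ * conj (𝓕 (fc (pr f 1)) ξ)).re : ℝ) : ℂ) +
      2 * ((|ξ| * (𝓕 (fc (pr f 0)) ξ * conj (𝓕 (fc (pr f 1)) ξ)).re : ℝ) : ℂ) * I := by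
    intro ξ
    rw [four_pr hf ξ, four_pr hf (-ξ), four_neg (fc_real _), four_neg (fc_real _)]
    generalize 𝓕 (fc (pr f 0)) ξ = u
    generalize 𝓕 (fc (pr f 1)) ξ = v
    have e1 : ((u * conj u).re : ℂ) = u * conj u := by
      rw [Complex.mul_conj]
      simp
    have e2 : ((v * conj v).re : ℂ) = v * conj v := by
      rw [Complex.mul_conj]
      simp
    have e3 : (2 * (u * conj v).re : ℂ) = u * conj v + conj u * v := by
      apply Complex.ext
      · simp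
        ring
      · simp
        ring
    push_cast
    rw [e1, e2]
    have e4 : (2 : ℂ) * (((|ξ| : ℝ) : ℂ) * ((u * conj v).re : ℂ)) * I =
        ((|ξ| : ℝ) : ℂ) * (2 * ((u * conj v).re : ℂ)) * I := by
      ring
    rw [e4, e3]
    have hI : I * I = -1 := Complex.I_mul_I
    linear_combination ((|ξ| : ℝ) : ℂ) * v * conj v * hI
  simp only [hp]
  have i0 : Integrable (fun ξ : ℝ =>
      ((|ξ| * (𝓕 (fc (pr f 0)) ξ * conj (𝓕 (fc (pr f 0)) ξ)).re : ℝ) : ℂ)) :=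
    (cv_int (pr_CC hf 0) (pr_CC hf 0)).ofReal (𝕜 := ℂ)
  have i1 : Integrable (fun ξ : ℝ =>
      ((|ξ| * (𝓕 (fc (pr f 1)) ξ * conj (𝓕 (fc (pr f 1)) ξ)).re : ℝ) : ℂ)) :=
    (cv_int (pr_CC hf 1) (pr_CC hf 1)).ofReal (𝕜 := ℂ)
  have i2 : Integrable (fun ξ : ℝ =>
      ((|ξ| * (𝓕 (fc (pr f 0)) ξ * conj (𝓕 (fc (pr f 1)) ξ)).re : ℝ) : ℂ)) :=
    (cv_int (pr_CC hf 0) (pr_CC hf 1)).ofReal (𝕜 := ℂ)
  have i2' := (i2.const_mul 2).mul_const I
  have hs := integral_add (f := fun ξ : ℝ =>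
      ((|ξ| * (𝓕 (fc (pr f 0)) ξ * conj (𝓕 (fc (pr f 0)) ξ)).re : ℝ) : ℂ) -
      ((|ξ| * (𝓕 (fc (pr f 1)) ξ * conj (𝓕 (fc (pr f 1)) ξ)).re : ℝ) : ℂ)) (i0.sub i1) i2'
  refine hs.trans ?_
  rw [integral_sub i0 i1, integral_mul_const, integral_const_mul]
  unfold cv
  rw [integral_complex_ofReal, integral_complex_ofReal, integral_complex_ofReal]
  push_cast
  ring

/-- **the exponential formula** -/
theorem kac (h : RiemannHypothesis) {f : ℝ → ℂ} (hf : CC f) {T L : ℕ → ℝ}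
    (hT : Tendsto T atTop atTop)
    (hL : Tendsto L atTop atTop) (hLT : Tendsto (fun n => L n / Real.log (T n)) atTop (𝓝 0)) :
    Tendsto (fun n => ((1 / T n : ℝ) : ℂ) * ∫ t in (T n)..(2 * T n), cexp (stC f (L n) (T n) t)) atTop
      (𝓝 (cexp (1 / 2 * ∫ ξ : ℝ, ((|ξ| : ℝ) : ℂ) * (𝓕 f ξ * 𝓕 f (-ξ))))) := by
  have hF := pr_CC hf
  obtain ⟨R, hR0, hR, hst⟩ := stC_eq hf
  set φ1 : EuclideanSpace ℝ (Fin 2) → ℝ := fun x => Real.exp (x.ofLp 0) * Real.cos (x.ofLp 1) with hφ1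
  set φ2 : EuclideanSpace ℝ (Fin 2) → ℝ := fun x => Real.exp (x.ofLp 0) * Real.sin (x.ofLp 1) with hφ2
  have c1 : Continuous φ1 := by rw [hφ1]; fun_prop
  have c2 : Continuous φ2 := by rw [hφ2]; fun_prop
  have hb : ∀ (x : EuclideanSpace ℝ (Fin 2)) (y : ℝ), |y| ≤ 1 →
      |Real.exp (x.ofLp 0) * y| ≤ 1 * Real.exp (1 * ‖x‖) := by
    intro x y hy
    rw [abs_mul, abs_of_pos (Real.exp_pos _), one_mul, one_mul]
    have h1 : x.ofLp 0 ≤ ‖x‖ := (le_abs_self _).trans (PiLp.norm_apply_le x 0)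
    have h2 := Real.exp_le_exp.2 h1
    have h3 := Real.exp_pos (x.ofLp 0)
    nlinarith [abs_nonneg y]
  have b1 : ∀ x, |φ1 x| ≤ 1 * Real.exp (1 * ‖x‖) := fun x => hb x _ (Real.abs_cos_le_one _)
  have b2 : ∀ x, |φ2 x| ≤ 1 * Real.exp (1 * ‖x‖) := fun x => hb x _ (Real.abs_sin_le_one _)
  have t1 := joint_exp h hF hT hL hLT c1 b1
  have t2 := joint_exp h hF hT hL hLT c2 b2
  have t3 := ((Complex.continuous_ofReal.tendsto _).comp t1).add
    (((Complex.continuous_ofReal.tendsto _).comp t2).mul_const I)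
  have key : ∀ x : EuclideanSpace ℝ (Fin 2), cexp ((x.ofLp 0 : ℂ) + (x.ofLp 1 : ℂ) * I) =
      (φ1 x : ℂ) + (φ2 x : ℂ) * I := by
    intro x
    rw [Complex.exp_add, Complex.exp_mul_I]
    simp only [hφ1, hφ2]
    push_cast
    ring
  -- the Gaussian side
  have hG : (((∫ x, φ1 x ∂(multivariateGaussian 0 (cm (pr f))) : ℝ) : ℂ)) +
      ((∫ x, φ2 x ∂(multivariateGaussian 0 (cm (pr f))) : ℝ) : ℂ) * I =
      cexp (1 / 2 * ∫ ξ : ℝ, ((|ξ| : ℝ) : ℂ) * (𝓕 f ξ * 𝓕 f (-ξ))) := by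
    have j1 : Integrable φ1 (multivariateGaussian 0 (cm (pr f))) :=
      ((gauss_norm (cm (pr f)) 1).const_mul 1).mono' c1.aestronglyMeasurable
        (Eventually.of_forall b1)
    have j2 : Integrable φ2 (multivariateGaussian 0 (cm (pr f))) :=
      ((gauss_norm (cm (pr f)) 1).const_mul 1).mono' c2.aestronglyMeasurable
        (Eventually.of_forall b2)
    have j1' : Integrable (fun x => (φ1 x : ℂ)) (multivariateGaussian 0 (cm (pr f))) :=
      j1.ofReal (𝕜 := ℂ)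
    have j2' : Integrable (fun x => (φ2 x : ℂ) * I) (multivariateGaussian 0 (cm (pr f))) :=
      (j2.ofReal (𝕜 := ℂ)).mul_const I
    have h1 : ∫ x : EuclideanSpace ℝ (Fin 2), cexp ((x.ofLp 0 : ℂ) + (x.ofLp 1 : ℂ) * I)
        ∂(multivariateGaussian 0 (cm (pr f))) =
        (((∫ x, φ1 x ∂(multivariateGaussian 0 (cm (pr f))) : ℝ) : ℂ)) +
      ((∫ x, φ2 x ∂(multivariateGaussian 0 (cm (pr f))) : ℝ) : ℂ) * I := by
      simp only [key]
      rw [integral_add j1' j2', integral_mul_const, integral_complex_ofReal,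
        integral_complex_ofReal]
    rw [← h1]
    have h2 := gauss_exp (cm_pos hF) ![1, I]
    simp only [Fin.sum_univ_two, Matrix.cons_val_zero, Matrix.cons_val_one, one_mul] at h2
    have h3 : ∀ x : EuclideanSpace ℝ (Fin 2), cexp ((x.ofLp 0 : ℂ) + (x.ofLp 1 : ℂ) * I) =
        cexp ((x.ofLp 0 : ℂ) + I * (x.ofLp 1 : ℂ)) := by
      intro x
      rw [mul_comm I]
    simp only [h3]
    refine h2.trans ?_
    rw [expo hf]
    congr 1
    have e1 : cm (pr f) 0 0 = cv (pr f 0) (pr f 0) := rfl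
    have e2 : cm (pr f) 0 1 = cv (pr f 0) (pr f 1) := rfl
    have e3 : cm (pr f) 1 0 = cv (pr f 0) (pr f 1) := cv_symm _ _
    have e4 : cm (pr f) 1 1 = cv (pr f 1) (pr f 1) := rfl
    rw [e1, e2, e3, e4]
    push_cast
    have hI : I * I = -1 := Complex.I_mul_I
    linear_combination (1 / 2 : ℂ) * (cv (pr f 1) (pr f 1) : ℂ) * hI
  rw [← hG]
  refine t3.congr' ?_
  filter_upwards [evs hT hL hLT R] with n hn
  have hle : T n ≤ 2 * T n := by linarith [hn.1]
  have hs : ∀ j, ContinuousOn (st (pr f j) (L n) (T n)) (Set.Icc (T n) (2 * T n)) :=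
    fun j => st_cont (hF j) (hR j) hn.2.2 hn.2.1
  have hv : ContinuousOn (vc (pr f) (L n) (T n)) (Set.Icc (T n) (2 * T n)) := by
    unfold vc
    refine (PiLp.continuous_toLp 2 _).comp_continuousOn ?_
    exact continuousOn_pi.2 hs
  have k1 : IntervalIntegrable (fun t => ((φ1 (vc (pr f) (L n) (T n) t) : ℝ) : ℂ)) volume
      (T n) (2 * T n) := by
    apply ContinuousOn.intervalIntegrable
    rw [Set.uIcc_of_le hle]
    exact Complex.continuous_ofReal.comp_continuousOn (c1.comp_continuousOn hv)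
  have k2 : IntervalIntegrable (fun t => ((φ2 (vc (pr f) (L n) (T n) t) : ℝ) : ℂ) * I) volume
      (T n) (2 * T n) := by
    apply ContinuousOn.intervalIntegrable
    rw [Set.uIcc_of_le hle]
    exact (Complex.continuous_ofReal.comp_continuousOn (c2.comp_continuousOn hv)).mul
      continuousOn_const
  have h1 : ∫ t in (T n)..(2 * T n), cexp (stC f (L n) (T n) t) =
      ((∫ t in (T n)..(2 * T n), φ1 (vc (pr f) (L n) (T n) t) : ℝ) : ℂ) +
      ((∫ t in (T n)..(2 * T n), φ2 (vc (pr f) (L n) (T n) t) : ℝ) : ℂ) * I := by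
    rw [← intervalIntegral.integral_ofReal, ← intervalIntegral.integral_ofReal,
      ← intervalIntegral.integral_mul_const, ← intervalIntegral.integral_add k1 k2]
    refine intervalIntegral.integral_congr fun t ht => ?_
    rw [Set.uIcc_of_le hle] at ht
    show cexp (stC f (L n) (T n) t) = _
    rw [hst (L n) (T n) t hn.2.2 hn.2.1 ht.1]
    exact key (vc (pr f) (L n) (T n) t)
  rw [h1]
  simp only [Function.comp_apply]
  push_cast
  ring

end Pool.Agent.Q278.KA
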